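import Pool.Agent.H15.G.R_seed8.Y205.MD.Final

/-! Classes of equal multiplicities, and models from the sums. -/

set_option autoImplicit false

namespace Pool.Agent.Y205.MD

open Finset Pool.Agent.TH176.Nag Pool.Agent.TH603.Sur H932R3

/-- a model from the sums -/
theorem exists_equiv_of_sum {α β : Type} [Fintype α] [Fintype β] {f : α → ℕ} {g : β → ℕ}
    (h : ∀ t : ℕ → ℕ, ∑ a, t (f a) = ∑ b, t (g b)) : ∃ σ : α ≃ β, ∀ a, f a = g (σ a) := by
  classical
  apply exists_fib_equiv
  intro v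
  rw [card_fib, card_fib]
  exact h fun y => if y = v then 1 else 0

/-- the classes of a vector, on a subset -/
theorem exists_classes' {ι : Type} [DecidableEq ι] (w : ι → ℕ) (S : Finset ι) :
    ∃ (r : ℕ) (m : Fin r → ℕ), r = (S.image w).card ∧ Function.Injective m ∧
      (∀ i, ∃ j ∈ S, w j = m i) ∧ ∀ j ∈ S, ∃ i, m i = w j := by
  obtain ⟨e, he⟩ : ∃ e : Fin (S.image w).card ≃ {x // x ∈ S.image w}, True :=
    ⟨(S.image w).equivFin.symm, trivial⟩
  refine ⟨_, fun i => (e i).1, rfl, ?_, ?_, ?_⟩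
  · intro i j hij
    exact e.injective (Subtype.ext hij)
  · intro i
    obtain ⟨j, hj, hj'⟩ := mem_image.1 (e i).2
    exact ⟨j, hj, hj'⟩
  · intro j hj
    refine ⟨e.symm ⟨w j, mem_image_of_mem _ hj⟩, ?_⟩
    show (e (e.symm ⟨w j, mem_image_of_mem _ hj⟩)).1 = w j
    rw [Equiv.apply_symm_apply]

/-- a sum over a subset, by classes -/
theorem sum_classes {ι : Type} [DecidableEq ι] {w : ι → ℕ} {S : Finset ι} {r : ℕ}
    {m : Fin r → ℕ} (hinj : Function.Injective m) (h : ∀ j ∈ S, ∃ i, m i = w j) (t : ℕ → ℕ) :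
    ∑ p ∈ S, t (w p) = ∑ i, (S.filter fun p => w p = m i).card * t (m i) := by
  have h1 : ∀ p ∈ S, t (w p) = ∑ i, if w p = m i then t (m i) else 0 := by
    intro p hp
    obtain ⟨i0, hi0⟩ := h p hp
    rw [Finset.sum_eq_single i0]
    · rw [if_pos hi0.symm, hi0]
    · intro i _ hi
      rw [if_neg]
      intro hcon
      exact hi (hinj (hcon.symm.trans hi0.symm))
    · intro hcon
      exact absurd (mem_univ _) hcon
  rw [sum_congr rfl h1, sum_comm]
  refine sum_congr rfl fun i _ => ?_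
  rw [← sum_filter, sum_const, smul_eq_mul]

end Pool.Agent.Y205.MD
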