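import Pool.Agent.H15.G.R_seed8.Y205.MD.Num
import Pool.Agent.H15.G.R_seed8.TH603.Sur.Main
import Pool.Agent.H15.G.R_seed8.TH745.MN.Dbl

/-! The expected dimension in every degree: large multiplicities. -/

set_option autoImplicit false

namespace Pool.Agent.Y205.MD

open Finset Pool.Agent.TH176.Nag Pool.Agent.TH603.Sur H932R3
open Pool.Agent.TH745.MN (TZ_mono)

/-- bijections from the cardinalities of the fibers -/
theorem exists_fib_equiv {α β γ : Type} [Fintype α] [Fintype β] [DecidableEq γ] {f : α → γ}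
    {g : β → γ} (h : ∀ v, Fintype.card {a // f a = v} = Fintype.card {b // g b = v}) :
    ∃ σ : α ≃ β, ∀ a, f a = g (σ a) := by
  have h1 : ∀ v, Nonempty ({a // f a = v} ≃ {b // g b = v}) := fun v =>
    ⟨Fintype.equivOfCardEq (h v)⟩
  exact ⟨Equiv.ofFiberEquiv fun v => (h1 v).some,
    fun a => (Equiv.ofFiberEquiv_map (fun v => (h1 v).some) a).symm⟩

/-- the classes of a vector -/
theorem exists_classes {n : ℕ} (w : Fin n → ℕ) :
    ∃ (r : ℕ) (m : Fin r → ℕ), r = (univ.image w).card ∧ Function.Injective m ∧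
      (∀ i, ∃ j, w j = m i) ∧ ∀ j, ∃ i, m i = w j := by
  classical
  obtain ⟨e, he⟩ : ∃ e : Fin (univ.image w).card ≃ {x // x ∈ univ.image w}, True :=
    ⟨(univ.image w).equivFin.symm, trivial⟩
  refine ⟨_, fun i => (e i).1, rfl, ?_, ?_, ?_⟩
  · intro i j hij
    exact e.injective (Subtype.ext hij)
  · intro i
    obtain ⟨j, -, hj⟩ := mem_image.1 (e i).2
    exact ⟨j, hj⟩
  · intro j
    refine ⟨e.symm ⟨w j, mem_image_of_mem _ (mem_univ j)⟩, ?_⟩
    show (e (e.symm ⟨w j, mem_image_of_mem _ (mem_univ j)⟩)).1 = w j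
    rw [Equiv.apply_symm_apply]

theorem sum_elim_model {r : ℕ} (m A c : Fin r → ℕ) (f : ℕ → ℕ) :
    ∑ x, f (Sum.elim (fun p : (Σ i, Fin (A i)) × (Fin 2 × Fin 2) => m p.1.1)
        (fun x : Σ i, Fin (c i) => m x.1) x) = ∑ i, (4 * A i + c i) * f (m i) := by
  rw [Fintype.sum_sum_type]
  simp only [Sum.elim_inl, Sum.elim_inr]
  rw [Fintype.sum_prod_type, Fintype.sum_sigma, Fintype.sum_sigma, ← sum_add_distrib]
  refine sum_congr rfl fun i _ => ?_
  simp only [sum_const, card_univ, Fintype.card_fin, Fintype.card_prod, smul_eq_mul]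
  ring

/-- the model of a vector -/
theorem exists_model {n r : ℕ} {w : Fin n → ℕ} {m : Fin r → ℕ} (hinj : Function.Injective m)
    (h2 : ∀ j, ∃ i, m i = w j) {A c : Fin r → ℕ}
    (hN : ∀ i, 4 * A i + c i = (univ.filter fun j => w j = m i).card) :
    ∃ σ : (((Σ i, Fin (A i)) × (Fin 2 × Fin 2)) ⊕ (Σ i, Fin (c i))) ≃ Fin n,
      ∀ x, Sum.elim (fun p : (Σ i, Fin (A i)) × (Fin 2 × Fin 2) => m p.1.1)
        (fun x : Σ i, Fin (c i) => m x.1) x = w (σ x) := by
  classical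
  apply exists_fib_equiv
  intro v
  rw [card_fib, card_fib]
  have e0 := sum_elim_model m A c fun y => if y = v then 1 else 0
  have e1 : ∀ i : Fin r, (4 * A i + c i) * (if m i = v then 1 else 0) =
      if m i = v then (univ.filter fun j => w j = m i).card else 0 := by
    intro i
    rw [← hN i]
    split_ifs <;> ring
  refine e0.trans ?_
  simp only [e1]
  by_cases hv : ∃ i, m i = v
  · obtain ⟨i0, rfl⟩ := hv
    rw [Finset.sum_eq_single i0]
    · rw [if_pos rfl, card_filter]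
    · intro i _ hi
      rw [if_neg fun h => hi (hinj h)]
    · intro h
      exact absurd (mem_univ _) h
  · push Not at hv
    rw [sum_eq_zero fun i _ => if_neg (hv i), eq_comm]
    refine sum_eq_zero fun j _ => if_neg fun hj => ?_
    obtain ⟨i, hi⟩ := h2 j
    exact hv i (hi.trans hj)

theorem sum_model {n r : ℕ} {w : Fin n → ℕ} {m : Fin r → ℕ} {A c : Fin r → ℕ}
    (σ : (((Σ i, Fin (A i)) × (Fin 2 × Fin 2)) ⊕ (Σ i, Fin (c i))) ≃ Fin n)
    (hσ : ∀ x, Sum.elim (fun p : (Σ i, Fin (A i)) × (Fin 2 × Fin 2) => m p.1.1)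
        (fun x : Σ i, Fin (c i) => m x.1) x = w (σ x)) (f : ℕ → ℕ) :
    ∑ p, f (w p) = ∑ i, (4 * A i + c i) * f (m i) := by
  rw [← Equiv.sum_comp σ fun p => f (w p)]
  simp only [← hσ]
  exact sum_elim_model m A c f

/-- **The critical degrees**, large multiplicities. -/
theorem crit_large {n : ℕ} {w : Fin n → ℕ} {M : ℕ} {ρ : ℝ} (hn : 0 < n) (hρ : 1 ≤ ρ)
    (hM : ∀ i, M ≤ w i) (hMρ : ∀ i, (w i : ℝ) ≤ ρ * M)
    (hr : 30 * ρ ^ 3 * (univ.image w).card ≤ √(n : ℝ)) (hqM : √(n : ℝ) ≤ M)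
    (hs : ∀ i, 16 * ρ ^ 3 ≤ ((univ.filter fun j => w j = w i).card : ℝ))
    (hs' : ∀ i, 16 * ρ ^ 3 * n ≤ M * ((univ.filter fun j => w j = w i).card : ℝ)) {d : ℕ}
    (hT1 : d * (d + 1) < 2 * ∑ p, (w p + 1).choose 2)
    (hT2 : 2 * ∑ p, (w p + 1).choose 2 ≤ (d + 2) * (d + 3)) :
    ((d + 2).choose 2 ≤ ∑ p, (w p + 1).choose 2 → Emp w (TZ d)) ∧
      (∑ p, (w p + 1).choose 2 ≤ (d + 2).choose 2 → Sur w (TZ d)) := by
  classical
  obtain ⟨r, m, hrd, hinj, hm1, hm2⟩ := exists_classes w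
  rw [← hrd] at hr
  have hr0 : 0 < r := by
    obtain ⟨i, -⟩ := hm2 ⟨0, hn⟩
    exact lt_of_le_of_lt (Nat.zero_le _) i.2
  obtain ⟨N, hN⟩ : ∃ N : Fin r → ℕ, ∀ i, N i = (univ.filter fun j => w j = m i).card :=
    ⟨_, fun _ => rfl⟩
  have hN1 : ∀ i, 16 * ρ ^ 3 ≤ (N i : ℝ) := by
    intro i
    obtain ⟨j, hj⟩ := hm1 i
    rw [hN, ← hj]
    exact hs j
  have hN2 : ∀ i, 16 * ρ ^ 3 * n ≤ M * (N i : ℝ) := by
    intro i
    obtain ⟨j, hj⟩ := hm1 i
    rw [hN, ← hj]
    exact hs' j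
  have hρ2 : 1 ≤ ρ ^ 2 := one_le_pow₀ hρ
  have hρ3 : ρ ^ 2 ≤ ρ ^ 3 := by nlinarith
  obtain ⟨c0, hc0, hc0'⟩ : ∃ c0 : ℕ, 4 * ρ ^ 2 ≤ c0 ∧ (c0 : ℝ) < 4 * ρ ^ 2 + 1 :=
    ⟨⌈4 * ρ ^ 2⌉₊, Nat.le_ceil _, Nat.ceil_lt_add_one (by positivity)⟩
  have hcN : ∀ i, c0 ≤ N i := by
    intro i
    have : (c0 : ℝ) ≤ N i := by
      have := hN1 i
      linarith
    exact_mod_cast this
  obtain ⟨c, hc⟩ : ∃ c : Fin r → ℕ, ∀ i, c i = c0 + (N i - c0) % 4 := ⟨_, fun _ => rfl⟩
  obtain ⟨A, hA⟩ : ∃ A : Fin r → ℕ, ∀ i, A i = (N i - c0) / 4 := ⟨_, fun _ => rfl⟩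
  have hAc : ∀ i, 4 * A i + c i = N i := by
    intro i
    have := hcN i
    rw [hA, hc]
    omega
  have hAcr : ∀ i, 4 * (A i : ℝ) + c i = N i := fun i => by exact_mod_cast hAc i
  have hc1 : ∀ i, 4 * ρ ^ 2 ≤ c i := by
    intro i
    have : (c0 : ℝ) ≤ c i := by
      have : c0 ≤ c i := by rw [hc]; omega
      exact_mod_cast this
    linarith
  have hc2 : ∀ i, (c i : ℝ) ≤ 4 * ρ ^ 2 + 4 := by
    intro i
    have : c i ≤ c0 + 3 := by rw [hc]; omega
    have : (c i : ℝ) ≤ ((c0 + 3 : ℕ) : ℝ) := by exact_mod_cast this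
    push_cast at this
    linarith
  obtain ⟨σ, hσ⟩ := exists_model hinj hm2 (A := A) (c := c) (fun i => by rw [hAc, hN])
  have hn0 : (0 : ℝ) ≤ n := Nat.cast_nonneg _
  have hM0 : (0 : ℝ) ≤ M := Nat.cast_nonneg _
  have hsq : √(n : ℝ) ^ 2 = n := Real.sq_sqrt hn0
  have hnsum : (n : ℝ) = ∑ i, (4 * (A i : ℝ) + c i) := by
    have h1 := sum_model σ hσ (fun _ => 1)
    simp only [sum_const, card_univ, Fintype.card_fin, smul_eq_mul, mul_one] at h1
    have h2 : ((n : ℕ) : ℝ) = ((∑ i, (4 * A i + c i) : ℕ) : ℝ) := by rw [← h1]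
    push_cast at h2
    exact h2
  have hT : ((2 * ∑ p, (w p + 1).choose 2 : ℕ) : ℝ) =
      ∑ i, (4 * (A i : ℝ) + c i) * (m i * (m i + 1)) := by
    rw [sum_model σ hσ (fun x => (x + 1).choose 2)]
    push_cast
    rw [mul_sum]
    refine sum_congr rfl fun i _ => ?_
    rw [choose_real]
    ring
  have hmM : ∀ i, M ≤ m i := by
    intro i
    obtain ⟨j, hj⟩ := hm1 i
    rw [← hj]
    exact hM j
  have hmρ : ∀ i, (m i : ℝ) ≤ ρ * M := by
    intro i
    obtain ⟨j, hj⟩ := hm1 i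
    rw [← hj]
    exact hMρ j
  have hd := crit_num (A := A) (c := c) hr0 hρ hmM hmρ hr hqM hc1 (fun i => by linarith [hc2 i])
    (fun i => by linarith [hc2 i, hN1 i, hAcr i])
    (fun i => by
      rw [hsq]
      have h1 : (N i : ℝ) ≤ 8 * A i := by linarith [hc2 i, hN1 i, hAcr i]
      have h2 : (M : ℝ) * N i ≤ M * (8 * A i) := mul_le_mul_of_nonneg_left h1 hM0
      have h3 := hN2 i
      have h4 : 16 * 1 * (n : ℝ) ≤ 16 * ρ ^ 3 * n := by
        apply mul_le_mul_of_nonneg_right _ hn0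
        linarith
      linarith)
    (by rw [hsq]; exact hnsum)
    (d := d) (by
      rw [← hT]
      have : ((d * (d + 1) : ℕ) : ℝ) < ((2 * ∑ p, (w p + 1).choose 2 : ℕ) : ℝ) := by
        exact_mod_cast hT1
      push_cast at this ⊢
      linarith)
    (by
      rw [← hT]
      exact_mod_cast hT2)
  have key := hd.dbl
  rw [← sum_model σ hσ (fun x => (x + 1).choose 2)] at key
  exact ⟨fun h => Emp_equiv σ hσ (key.1 h), fun h => Sur_equiv σ hσ (key.2 h)⟩

/-- **Every degree**, from the critical ones. -/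
theorem expDim_of_crit {n : ℕ} {w : Fin n → ℕ} (hpos : 0 < ∑ p, (w p + 1).choose 2)
    (h : ∀ d, d * (d + 1) < 2 * ∑ p, (w p + 1).choose 2 →
      2 * ∑ p, (w p + 1).choose 2 ≤ (d + 2) * (d + 3) →
      ((d + 2).choose 2 ≤ ∑ p, (w p + 1).choose 2 → Emp w (TZ d)) ∧
      (∑ p, (w p + 1).choose 2 ≤ (d + 2).choose 2 → Sur w (TZ d))) :
    ∃ F : MvPolynomial (Fin n × Fin 2) ℚ, F ≠ 0 ∧ ∀ {L : Type} [Field L] [CharZero L]
      (P : Fin n → Fin 2 → L), MvPolynomial.aeval (fun ij : Fin n × Fin 2 => P ij.1 ij.2) F ≠ 0 →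
      ∀ d, ExpDim L w P d := by
  obtain ⟨T, hT⟩ : ∃ T, T = ∑ p, (w p + 1).choose 2 := ⟨_, rfl⟩
  rw [← hT] at h hpos
  have hc : ∀ d : ℕ, 2 * (d + 2).choose 2 = (d + 1) * (d + 2) := fun d =>
    Pool.Agent.TH2.NU.two_choose (d + 1)
  have hmono : ∀ a b : ℕ, a ≤ b → (a + 1) * (a + 2) ≤ (b + 1) * (b + 2) := fun a b hab =>
    Nat.mul_le_mul (by omega) (by omega)
  obtain ⟨F, hF, hF'⟩ := expDim_two (w := w) (A := fun d => (d + 2).choose 2 ≤ T)
    (B := fun d => T ≤ (d + 2).choose 2) T (fun d hd => by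
      have h1 : d + 1 ≤ (d + 2).choose 2 := by
        rw [Nat.choose_succ_succ' (d + 1) 1, Nat.choose_one_right]
        omega
      omega) (fun d hd => by
      -- the greatest degree below
      have hb : ∀ e, (e + 2).choose 2 ≤ T → e ≤ T := fun e he => by
        have h1 : e + 1 ≤ (e + 2).choose 2 := by
          rw [Nat.choose_succ_succ' (e + 1) 1, Nat.choose_one_right]
          omega
        omega
      obtain ⟨e, he⟩ : ∃ e, e = Nat.findGreatest (fun e => (e + 2).choose 2 ≤ T) T := ⟨_, rfl⟩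
      have h1 : (e + 2).choose 2 ≤ T := by
        rw [he]
        exact Nat.findGreatest_spec (P := fun e => (e + 2).choose 2 ≤ T) (hb d hd) hd
      have h2 : d ≤ e := by
        rw [he]
        exact Nat.le_findGreatest (hb d hd) hd
      have h3 : ¬ (e + 1 + 2).choose 2 ≤ T := by
        intro hcon
        have : e + 1 ≤ e := by
          conv_rhs => rw [he]
          exact Nat.le_findGreatest (hb _ hcon) hcon
        omega
      have h4 := hc e
      have h5 := hc (e + 1)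
      have h6 : e * (e + 1) < (e + 1) * (e + 2) := by nlinarith
      exact Emp.mono ((h e (by omega) (by
        have : (e + 1 + 1) * (e + 1 + 2) = (e + 2) * (e + 3) := by ring
        omega)).1 h1) (TZ_mono h2)) (fun d hd => by
      -- the least degree above
      have hex : ∃ e, T ≤ (e + 2).choose 2 := ⟨d, hd⟩
      obtain ⟨e, he⟩ : ∃ e, e = Nat.find hex := ⟨_, rfl⟩
      have h1 : T ≤ (e + 2).choose 2 := by rw [he]; exact Nat.find_spec hex
      have h2 : e ≤ d := by rw [he]; exact Nat.find_min' hex hd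
      have h4 := hc e
      refine Sur.mono ((h e ?_ ?_).2 h1) (TZ_mono h2)
      · rcases Nat.eq_zero_or_pos e with h0 | h0
        · rw [h0]; omega
        · have h3 := Nat.find_min hex (m := e - 1) (by omega)
          have h5 := hc (e - 1)
          have e1 : e - 1 + 1 = e := by omega
          have e2 : e - 1 + 2 = e + 1 := by omega
          rw [e1, e2] at h5
          rw [e2] at h3
          omega
      · have : (e + 1) * (e + 2) ≤ (e + 2) * (e + 3) := by nlinarith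
        omega)
  exact ⟨F, hF, fun {L} _ _ P hP d => hF' P hP d (le_total _ _)⟩

end Pool.Agent.Y205.MD
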