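import Pool.Agent.H15.G.R_seed8.Y205.MD.SurL
import Pool.Agent.H15.G.R_seed8.TH745.MN.Main

/-! Emptiness and independence for blocks which are given by a map, and for two families of
blocks. -/

set_option autoImplicit false

namespace Pool.Agent.Y205.MD

open Finset Pool.Agent.TH176.Nag Pool.Agent.TH603.Sur Pool.Agent.TH745.MN

theorem sum_fib {ι β : Type} [Fintype ι] [DecidableEq β] (π : ι → β) (f : ι → ℕ) (i : β) :
    ∑ j : {x // π x = i}, f j = ∑ x, if π x = i then f x else 0 := by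
  rw [← Finset.sum_filter]
  exact (Finset.sum_subtype _ (by simp) _).symm

theorem card_fib {ι β : Type} [Fintype ι] [DecidableEq β] (π : ι → β) (i : β) :
    Fintype.card {x // π x = i} = ∑ x, if π x = i then 1 else 0 := by
  rw [Fintype.card_subtype, Finset.card_filter]

theorem fib_inj {ι β : Type} (π : ι → β) :
    Function.Injective fun x : (Σ i, {x // π x = i}) => (x.2 : ι) := by
  rintro ⟨i, x, hx⟩ ⟨j, y, hy⟩ h
  simp only at h
  subst h
  subst hx
  subst hy
  rfl

/-- emptiness for blocks which are given by a map -/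
theorem Emp_fib {ι : Type} [Fintype ι] {r K d : ℕ} (hK : 1 ≤ K) (hr : r + 1 ≤ K ^ 2)
    (π : ι → Fin r) {v : ι → ℕ} {S N : Fin r → ℕ}
    (hS : ∀ i, S i = ∑ x, if π x = i then v x else 0)
    (hN : ∀ i, N i = ∑ x, if π x = i then 1 else 0) (h1 : ∀ i, d < 2 * K * S i)
    (h3 : (d : ℝ) ^ 2 < ∑ i, min ((S i : ℝ) ^ 2 / N i) ((S i : ℝ) * d / (2 * K))) :
    Emp v {m : ℤ × ℤ | 0 ≤ m.1 ∧ 0 ≤ m.2 ∧ m.1 + m.2 ≤ (d : ℤ)} := by
  classical
  have e1 : ∀ i, ∑ j : {x // π x = i}, v j = S i := fun i => by rw [hS, sum_fib]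
  have e2 : ∀ i, Fintype.card {x // π x = i} = N i := fun i => by rw [hN, card_fib]
  have key := Emp_blocks (K := K) (d := d) (r := r) hK hr (κ := fun i => {x // π x = i})
    (v := fun x => v x.2) (by intro i; rw [e1]; exact h1 i) (by simp only [e1, e2]; exact h3)
  exact Emp_emb _ (fib_inj π) (fun _ => le_rfl) key

/-- independence for blocks which are given by a map -/
theorem Sur_fib {ι : Type} [Fintype ι] {r K d : ℕ} (hK : 2 ≤ K) (hr : r + 1 ≤ K ^ 2)
    (π : ι → Fin r) {w : ι → ℕ} {n b : Fin r → ℝ}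
    (hrow : ∀ i, ∀ k : ℕ, (∃ x, π x = i ∧ k < w x) →
      ((∑ x, (if π x = i then w x - k else 0) : ℕ) : ℝ) + n i * (k + 1) ≤ b i)
    (hn : ∀ i, 1 < n i) (hnb : ∀ i, n i ≤ b i)
    (h1 : ∀ i, 2 * K * b i < n i * ((d : ℝ) + 3 - 1 / (2 * K)))
    (h2 : ∑ i, max (((d : ℝ) + 3 - 1 / (2 * K)) / (2 * K)) (b i) ^ 2 / n i <
      ((d : ℝ) + 3 - 1 / (2 * K)) ^ 2) :
    Sur w {m : ℤ × ℤ | 0 ≤ m.1 ∧ 0 ≤ m.2 ∧ m.1 + m.2 ≤ (d : ℤ)} := by
  classical
  obtain ⟨e, he⟩ : ∃ e, r + e + 1 = K ^ 2 := ⟨K ^ 2 - r - 1, by omega⟩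
  obtain ⟨π', hπ'⟩ : ∃ π' : ι → Fin (r + e), ∀ x, π' x = Fin.castAdd e (π x) := ⟨_, fun _ => rfl⟩
  obtain ⟨n', hn'⟩ : ∃ n' : Fin (r + e) → ℝ, n' = Fin.append n (fun _ => 0) := ⟨_, rfl⟩
  obtain ⟨b', hb'⟩ : ∃ b' : Fin (r + e) → ℝ, b' = Fin.append b (fun _ => 0) := ⟨_, rfl⟩
  have a1 : ∀ i x, (π' x = Fin.castAdd e i) = (π x = i) := fun i x => by
    rw [hπ']
    exact propext ⟨fun h => Fin.castAdd_injective r e h, fun h => by rw [h]⟩
  have a2 : ∀ i x, π' x ≠ Fin.natAdd r i := fun i x h => by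
    rw [hπ'] at h
    have := congrArg Fin.val h
    rw [Fin.val_castAdd, Fin.val_natAdd] at this
    have := (π x).2
    omega
  have b1 : ∀ i, n' (Fin.castAdd e i) = n i := fun i => by rw [hn', Fin.append_left]
  have b2 : ∀ i, b' (Fin.castAdd e i) = b i := fun i => by rw [hb', Fin.append_left]
  have c2 : ∀ i : Fin e, ¬ 0 < Fintype.card {x // π' x = Fin.natAdd r i} := by
    intro i
    rw [Fintype.card_pos_iff]
    rintro ⟨x, hx⟩
    exact a2 i x hx
  have key := Sur_blocksL (K := K) (d := d) (r := r + e) hK he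
    (κ := fun i => {x // π' x = i}) (w := fun x => w x.2) (n := n') (b := b')
    (by
      intro i
      refine Fin.addCases (fun i => ?_) (fun i => ?_) i
      · rintro k ⟨⟨x, hx⟩, hk⟩
        rw [a1] at hx
        rw [b1, b2, sum_fib π' (fun x => w x - k)]
        simp only [a1]
        exact hrow i k ⟨x, hx, hk⟩
      · rintro k ⟨⟨x, hx⟩, hk⟩
        exact absurd hx (a2 i x))
    (by
      intro i
      refine Fin.addCases (fun i => ?_) (fun i => ?_) i
      · intro _
        rw [b1]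
        exact hn i
      · intro h
        exact absurd h (c2 i))
    (by
      intro i
      refine Fin.addCases (fun i => ?_) (fun i => ?_) i
      · intro _
        rw [b1, b2]
        exact hnb i
      · intro h
        exact absurd h (c2 i))
    (by
      intro i
      refine Fin.addCases (fun i => ?_) (fun i => ?_) i
      · intro _
        rw [b1, b2]
        exact h1 i
      · intro h
        exact absurd h (c2 i))
    (by
      rw [Fin.sum_univ_add]
      have e3 : ∀ i : Fin e, (if 0 < Fintype.card {x // π' x = Fin.natAdd r i} then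
        max (((d : ℝ) + 3 - 1 / (2 * K)) / (2 * K)) (b' (Fin.natAdd r i)) ^ 2 /
          n' (Fin.natAdd r i) else 0) = 0 := fun i => if_neg (c2 i)
      rw [sum_congr rfl fun i _ => e3 i, sum_const_zero, add_zero]
      refine lt_of_le_of_lt (sum_le_sum fun i _ => ?_) h2
      rw [b1, b2]
      split_ifs
      · exact le_rfl
      · exact div_nonneg (sq_nonneg _) (by linarith [hn i]))
  exact Sur_emb _ (fib_inj π') (fun _ => rfl) (fun x _ => ⟨⟨π' x, x, rfl⟩, rfl⟩) key

section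
variable {r : ℕ} {A c : Fin r → ℕ}

/-- the blocks of two families -/
def pi2 (A c : Fin r → ℕ) : (Σ i, Fin (A i)) ⊕ (Σ i, Fin (c i)) → Fin (r + r) :=
  Sum.elim (fun x => Fin.castAdd r x.1) (fun x => Fin.natAdd r x.1)

theorem pi2_l (v : (Σ i, Fin (A i)) → ℕ) (e : (Σ i, Fin (c i)) → ℕ) (i : Fin r) :
    ∑ x, (if pi2 A c x = Fin.castAdd r i then Sum.elim v e x else 0) = ∑ j, v ⟨i, j⟩ := by
  rw [Fintype.sum_sum_type]
  have h1 : ∀ x : Σ i, Fin (c i), (if pi2 A c (Sum.inr x) = Fin.castAdd r i then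
      Sum.elim v e (Sum.inr x) else 0) = 0 := by
    intro x
    rw [if_neg]
    intro h
    have h2 : Fin.natAdd r x.1 = Fin.castAdd r i := h
    have := congrArg Fin.val h2
    rw [Fin.val_natAdd, Fin.val_castAdd] at this
    have := i.2
    omega
  rw [sum_congr rfl fun x _ => h1 x, sum_const_zero, add_zero, Fintype.sum_sigma,
    Finset.sum_eq_single i]
  · refine sum_congr rfl fun j _ => ?_
    rw [if_pos (show pi2 A c (Sum.inl ⟨i, j⟩) = Fin.castAdd r i from rfl)]
    rfl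
  · intro i' _ hi'
    refine sum_eq_zero fun j _ => ?_
    rw [if_neg]
    intro h
    exact hi' (Fin.castAdd_injective r r h)
  · intro h
    exact absurd (mem_univ _) h

theorem pi2_r (v : (Σ i, Fin (A i)) → ℕ) (e : (Σ i, Fin (c i)) → ℕ) (i : Fin r) :
    ∑ x, (if pi2 A c x = Fin.natAdd r i then Sum.elim v e x else 0) = ∑ j, e ⟨i, j⟩ := by
  rw [Fintype.sum_sum_type]
  have h1 : ∀ x : Σ i, Fin (A i), (if pi2 A c (Sum.inl x) = Fin.natAdd r i then
      Sum.elim v e (Sum.inl x) else 0) = 0 := by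
    intro x
    rw [if_neg]
    intro h
    have h2 : Fin.castAdd r x.1 = Fin.natAdd r i := h
    have := congrArg Fin.val h2
    rw [Fin.val_natAdd, Fin.val_castAdd] at this
    have := x.1.2
    omega
  rw [sum_congr rfl fun x _ => h1 x, sum_const_zero, zero_add, Fintype.sum_sigma,
    Finset.sum_eq_single i]
  · refine sum_congr rfl fun j _ => ?_
    rw [if_pos (show pi2 A c (Sum.inr ⟨i, j⟩) = Fin.natAdd r i from rfl)]
    rfl
  · intro i' _ hi'
    refine sum_eq_zero fun j _ => ?_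
    rw [if_neg]
    intro h
    exact hi' (Fin.natAdd_injective r r h)
  · intro h
    exact absurd (mem_univ _) h

/-- **Emptiness** for two families of blocks. -/
theorem Emp_two {K d : ℕ} (hK : 1 ≤ K) (hr : 2 * r + 1 ≤ K ^ 2) {v : (Σ i, Fin (A i)) → ℕ}
    {e : (Σ i, Fin (c i)) → ℕ} (h1 : ∀ i, d < 2 * K * ∑ j, v ⟨i, j⟩)
    (h1' : ∀ i, d < 2 * K * ∑ j, e ⟨i, j⟩)
    (h2 : ∀ i, 2 * K * ∑ j, v ⟨i, j⟩ ≤ A i * d) (h2' : ∀ i, 2 * K * ∑ j, e ⟨i, j⟩ ≤ c i * d)
    (h3 : (d : ℝ) ^ 2 < ∑ i, ((∑ j, v ⟨i, j⟩ : ℕ) : ℝ) ^ 2 / A i +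
      ∑ i, ((∑ j, e ⟨i, j⟩ : ℕ) : ℝ) ^ 2 / c i) :
    Emp (Sum.elim v e) {m : ℤ × ℤ | 0 ≤ m.1 ∧ 0 ≤ m.2 ∧ m.1 + m.2 ≤ (d : ℤ)} := by
  have hK0 : (0 : ℝ) < K := by exact_mod_cast hK
  have hmin : ∀ (S N : ℕ), d < 2 * K * S → 2 * K * S ≤ N * d →
      min ((S : ℝ) ^ 2 / N) ((S : ℝ) * d / (2 * K)) = (S : ℝ) ^ 2 / N := by
    intro S N g1 g2
    apply min_eq_left
    have hN : 0 < N := by
      rcases Nat.eq_zero_or_pos N with h | h
      · subst h
        omega
      · exact h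
    have hN' : (0 : ℝ) < N := by exact_mod_cast hN
    have g3 : 2 * (K : ℝ) * S ≤ N * d := by exact_mod_cast g2
    rw [div_le_div_iff₀ hN' (by positivity)]
    calc (S : ℝ) ^ 2 * (2 * K) = S * (2 * K * S) := by ring
      _ ≤ S * (N * d) := mul_le_mul_of_nonneg_left g3 (Nat.cast_nonneg _)
      _ = _ := by ring
  obtain ⟨S, hS⟩ : ∃ S : Fin (r + r) → ℕ, S = Fin.append (fun i => ∑ j, v ⟨i, j⟩)
    (fun i => ∑ j, e ⟨i, j⟩) := ⟨_, rfl⟩
  obtain ⟨N, hN⟩ : ∃ N : Fin (r + r) → ℕ, N = Fin.append A c := ⟨_, rfl⟩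
  have s1 : ∀ i, S (Fin.castAdd r i) = ∑ j, v ⟨i, j⟩ := fun i => by rw [hS, Fin.append_left]
  have s2 : ∀ i, S (Fin.natAdd r i) = ∑ j, e ⟨i, j⟩ := fun i => by rw [hS, Fin.append_right]
  have n1 : ∀ i, N (Fin.castAdd r i) = A i := fun i => by rw [hN, Fin.append_left]
  have n2 : ∀ i, N (Fin.natAdd r i) = c i := fun i => by rw [hN, Fin.append_right]
  have one : (fun _ => 1 : (Σ i, Fin (A i)) ⊕ (Σ i, Fin (c i)) → ℕ) =
      Sum.elim (fun _ => 1) (fun _ => 1) := by
    funext x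
    rcases x with x | x <;> rfl
  refine Emp_fib hK (by omega) (pi2 A c) (S := S) (N := N) ?_ ?_ ?_ ?_
  · intro i
    refine Fin.addCases (fun i => ?_) (fun i => ?_) i
    · rw [s1, pi2_l]
    · rw [s2, pi2_r]
  · intro i
    refine Fin.addCases (fun i => ?_) (fun i => ?_) i
    · have := pi2_l (A := A) (c := c) (fun _ => 1) (fun _ => 1) i
      rw [← one] at this
      rw [n1, this]
      simp
    · have := pi2_r (A := A) (c := c) (fun _ => 1) (fun _ => 1) i
      rw [← one] at this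
      rw [n2, this]
      simp
  · intro i
    refine Fin.addCases (fun i => ?_) (fun i => ?_) i
    · rw [s1]; exact h1 i
    · rw [s2]; exact h1' i
  · rw [Fin.sum_univ_add]
    refine lt_of_lt_of_le h3 (le_of_eq ?_)
    congr 1
    · refine sum_congr rfl fun i _ => ?_
      rw [s1, n1, hmin _ _ (h1 i) (h2 i)]
    · refine sum_congr rfl fun i _ => ?_
      rw [s2, n2, hmin _ _ (h1' i) (h2' i)]

theorem max_le_sq {a b N : ℝ} (h : a ≤ b) : max a b ^ 2 / N = b ^ 2 / N := by
  rw [max_eq_right h]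

/-- **Independence** for two families of blocks with constant multiplicities. -/
theorem Sur_two {K d : ℕ} (hK : 2 ≤ K) (hr : 2 * r + 1 ≤ K ^ 2) {mA mc : Fin r → ℕ}
    (hA : ∀ i, 2 ≤ A i) (hc : ∀ i, 2 ≤ c i) {R : ℝ} (hR : R = (d : ℝ) + 3 - 1 / (2 * K))
    (h1 : ∀ i, 2 * (K : ℝ) * (mA i + 1) < R) (h1' : ∀ i, 2 * (K : ℝ) * (mc i + 1) < R)
    (h2 : ∀ i, R ≤ 2 * K * (A i * (mA i + 1))) (h2' : ∀ i, R ≤ 2 * K * (c i * (mc i + 1)))
    (h3 : ∑ i, (A i : ℝ) * (mA i + 1) ^ 2 + ∑ i, (c i : ℝ) * (mc i + 1) ^ 2 < R ^ 2) :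
    Sur (Sum.elim (fun x : Σ i, Fin (A i) => mA x.1) (fun x : Σ i, Fin (c i) => mc x.1))
      {m : ℤ × ℤ | 0 ≤ m.1 ∧ 0 ≤ m.2 ∧ m.1 + m.2 ≤ (d : ℤ)} := by
  have hK0 : (0 : ℝ) < K := by
    have : 0 < K := by omega
    exact_mod_cast this
  obtain ⟨n, hn⟩ : ∃ n : Fin (r + r) → ℝ, n = Fin.append (fun i => (A i : ℝ))
    (fun i => (c i : ℝ)) := ⟨_, rfl⟩
  obtain ⟨b, hb⟩ : ∃ b : Fin (r + r) → ℝ, b = Fin.append (fun i => (A i : ℝ) * (mA i + 1))
    (fun i => (c i : ℝ) * (mc i + 1)) := ⟨_, rfl⟩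
  have n1 : ∀ i, n (Fin.castAdd r i) = A i := fun i => by rw [hn, Fin.append_left]
  have n2 : ∀ i, n (Fin.natAdd r i) = c i := fun i => by rw [hn, Fin.append_right]
  have b1 : ∀ i, b (Fin.castAdd r i) = A i * (mA i + 1) := fun i => by rw [hb, Fin.append_left]
  have b2 : ∀ i, b (Fin.natAdd r i) = c i * (mc i + 1) := fun i => by rw [hb, Fin.append_right]
  have hA' : ∀ i, (2 : ℝ) ≤ A i := fun i => by exact_mod_cast hA i
  have hc' : ∀ i, (2 : ℝ) ≤ c i := fun i => by exact_mod_cast hc i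
  have hsub : ∀ k : ℕ, (fun x => Sum.elim (fun x : Σ i, Fin (A i) => mA x.1)
      (fun x : Σ i, Fin (c i) => mc x.1) x - k) =
      Sum.elim (fun x : Σ i, Fin (A i) => mA x.1 - k) (fun x : Σ i, Fin (c i) => mc x.1 - k) := by
    intro k
    funext x
    rcases x with x | x <;> rfl
  have hrow : ∀ (N w k : ℕ), k < w → (((N * (w - k) : ℕ) : ℝ)) + N * (k + 1) ≤ N * (w + 1) := by
    intro N w k hk
    have e : ((w - k : ℕ) : ℝ) = w - k := by rw [Nat.cast_sub hk.le]
    rw [Nat.cast_mul, e]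
    apply le_of_eq
    ring
  refine Sur_fib hK (by omega) (pi2 A c) (n := n) (b := b) ?_ ?_ ?_ ?_ ?_
  · intro i
    refine Fin.addCases (fun i => ?_) (fun i => ?_) i
    · rintro k ⟨x, hx, hk⟩
      have g1 := pi2_l (A := A) (c := c) (fun x => mA x.1 - k) (fun x => mc x.1 - k) i
      rw [← hsub k] at g1
      rw [g1, n1, b1]
      have hki : k < mA i := by
        rcases x with x | x
        · have : x.1 = i := Fin.castAdd_injective r r hx
          rw [← this]
          exact hk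
        · exfalso
          have h2 : Fin.natAdd r x.1 = Fin.castAdd r i := hx
          have := congrArg Fin.val h2
          rw [Fin.val_natAdd, Fin.val_castAdd] at this
          have := i.2
          omega
      have := hrow (A i) (mA i) k hki
      simp only [sum_const, card_univ, Fintype.card_fin, smul_eq_mul]
      exact this
    · rintro k ⟨x, hx, hk⟩
      have g1 := pi2_r (A := A) (c := c) (fun x => mA x.1 - k) (fun x => mc x.1 - k) i
      rw [← hsub k] at g1
      rw [g1, n2, b2]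
      have hki : k < mc i := by
        rcases x with x | x
        · exfalso
          have h2 : Fin.castAdd r x.1 = Fin.natAdd r i := hx
          have := congrArg Fin.val h2
          rw [Fin.val_natAdd, Fin.val_castAdd] at this
          have := x.1.2
          omega
        · have : x.1 = i := Fin.natAdd_injective r r hx
          rw [← this]
          exact hk
      have := hrow (c i) (mc i) k hki
      simp only [sum_const, card_univ, Fintype.card_fin, smul_eq_mul]
      exact this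
  · intro i
    refine Fin.addCases (fun i => ?_) (fun i => ?_) i
    · rw [n1]; linarith [hA' i]
    · rw [n2]; linarith [hc' i]
  · intro i
    refine Fin.addCases (fun i => ?_) (fun i => ?_) i
    · rw [n1, b1]
      have := hA' i
      have h5 : (0 : ℝ) ≤ mA i := Nat.cast_nonneg _
      nlinarith
    · rw [n2, b2]
      have := hc' i
      have h5 : (0 : ℝ) ≤ mc i := Nat.cast_nonneg _
      nlinarith
  · intro i
    rw [← hR]
    refine Fin.addCases (fun i => ?_) (fun i => ?_) i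
    · rw [n1, b1]
      have h5 : (0 : ℝ) < A i := by linarith [hA' i]
      have := mul_lt_mul_of_pos_left (h1 i) h5
      calc 2 * (K : ℝ) * (A i * (mA i + 1)) = A i * (2 * K * (mA i + 1)) := by ring
        _ < _ := this
    · rw [n2, b2]
      have h5 : (0 : ℝ) < c i := by linarith [hc' i]
      have := mul_lt_mul_of_pos_left (h1' i) h5
      calc 2 * (K : ℝ) * (c i * (mc i + 1)) = c i * (2 * K * (mc i + 1)) := by ring
        _ < _ := this
  · rw [← hR, Fin.sum_univ_add]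
    refine lt_of_le_of_lt (le_of_eq ?_) h3
    congr 1
    · refine sum_congr rfl fun i _ => ?_
      rw [n1, b1, max_le_sq]
      · have h5 : (A i : ℝ) ≠ 0 := by have := hA' i; positivity
        field_simp
      · rw [div_le_iff₀ (by positivity)]
        have := h2 i
        linarith
    · refine sum_congr rfl fun i _ => ?_
      rw [n2, b2, max_le_sq]
      · have h5 : (c i : ℝ) ≠ 0 := by have := hc' i; positivity
        field_simp
      · rw [div_le_iff₀ (by positivity)]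
        have := h2' i
        linarith

end

end Pool.Agent.Y205.MD
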