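import Pool.Agent.H15.G.R_seed8.Y205.MD.Near
import Pool.Agent.H15.G.R_seed8.W611.FinH

/-! **All vectors of nearly equal multiplicities**, every degree. -/

set_option autoImplicit false

namespace Pool.Agent.Y205.MD

open Finset Pool.Agent.TH176.Nag Pool.Agent.TH603.Sur H932R3

theorem near_all (L : Type) [Field L] [CharZero L] {n m s : ℕ} {w : Fin n → ℕ} (hm : 1 ≤ m)
    (hw1 : ∀ p, m ≤ w p) (hw2 : ∀ p, w p ≤ m + s) (h1 : 1000 * ((s : ℝ) + 1) ≤ √(n : ℝ))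
    (h2 : 1000000 * ((s : ℝ) + 1) ^ 3 ≤ m * √(n : ℝ)) :
    ∃ F : MvPolynomial (Fin n × Fin 2) ℚ, F ≠ 0 ∧ ∀ P : Fin n → Fin 2 → L,
      MvPolynomial.aeval (fun ij : Fin n × Fin 2 => P ij.1 ij.2) F ≠ 0 →
      ∀ d, ExpDim L w P d := by
  have hs0 : (0 : ℝ) ≤ s := Nat.cast_nonneg _
  have hn0 : 0 < n := by
    rcases Nat.eq_zero_or_pos n with h | h
    · rw [h] at h1
      simp at h1
      linarith
    · exact h
  rcases le_or_gt (2 / 5 * √(n : ℝ)) m with h3 | h3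
  · obtain ⟨F, hF, hF'⟩ := expDim_of_crit (w := w) (by
      have g1 : (w ⟨0, hn0⟩ + 1).choose 2 ≤ ∑ p, (w p + 1).choose 2 :=
        single_le_sum (f := fun p => (w p + 1).choose 2) (fun _ _ => Nat.zero_le _) (mem_univ _)
      have g2 : 0 < (w ⟨0, hn0⟩ + 1).choose 2 := Nat.choose_pos (by
        have := hw1 ⟨0, hn0⟩
        omega)
      omega) (fun d hT1 hT2 => crit_near hw1 hw2 h1 h2 h3 hT1 hT2)
    exact ⟨F, hF, fun P hP d => hF' P hP d⟩
  · obtain ⟨F, hF, hF'⟩ := W611.expH L (m + s) (by omega) w (W611.ff (m + s))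
      ⟨le_rfl, fun i hi => absurd (hw2 i) (by omega), fun i j _ hi _ => absurd (hw2 i) (by omega),
        Or.inl (by
          unfold W611.Nlg
          rw [sum_eq_zero fun i _ => if_pos (hw2 i)]
          omega)⟩
    refine ⟨F, hF, fun P hP d => hF' P hP d (Or.inr ?_)⟩
    -- the number of conditions
    obtain ⟨q, hq⟩ : ∃ q : ℝ, q = √(n : ℝ) := ⟨_, rfl⟩
    rw [← hq] at h1 h2 h3
    have hqq : q ^ 2 = n := by rw [hq]; exact Real.sq_sqrt (Nat.cast_nonneg _)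
    have hq1 : 1000 ≤ q := by linarith
    have hm1 : (1 : ℝ) ≤ m := by exact_mod_cast hm
    have hff : W611.ff (m + s) = 2 * (m + s) ^ 2 + 3 * (m + s) + 2 := by
      unfold W611.ff
      ring
    obtain ⟨D, hD⟩ : ∃ D, D = W611.ff (m + s) := ⟨_, rfl⟩
    rw [← hD] at hff ⊢
    obtain ⟨P, hP⟩ : ∃ P : ℝ, P = q * m := ⟨_, rfl⟩
    have hP0 : 0 < P := by rw [hP]; positivity
    have hs3 : (s : ℝ) + 1 ≤ (s + 1) ^ 3 := le_self_pow₀ (by linarith) (by norm_num)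
    have hs23 : ((s : ℝ) + 1) ^ 2 ≤ (s + 1) ^ 3 := pow_le_pow_right₀ (by linarith) (by norm_num)
    have hs2 : (s : ℝ) ^ 2 ≤ (s + 1) ^ 2 := pow_le_pow_left₀ hs0 (by linarith) 2
    have h2' : 1000000 * ((s : ℝ) + 1) ^ 3 ≤ P := by rw [hP]; linarith
    have hmP : 1000 * (m : ℝ) ≤ P := by
      rw [hP]
      exact mul_le_mul_of_nonneg_right hq1 (Nat.cast_nonneg _)
    have hmm : 2 * (m : ℝ) ^ 2 ≤ 4 / 5 * P := by
      rw [hP]
      have := mul_le_mul_of_nonneg_right h3.le (show (0 : ℝ) ≤ m by linarith)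
      linarith
    have hms : 4 * (m : ℝ) * s ≤ 4 / 1000 * P := by
      rw [hP]
      have := mul_le_mul_of_nonneg_right (show (s : ℝ) ≤ q / 1000 by linarith)
        (show (0 : ℝ) ≤ m by linarith)
      linarith
    have hDP : (D : ℝ) + 2 ≤ P := by
      rw [hff]
      push_cast
      have e1 : 2 * ((m : ℝ) + s) ^ 2 + 3 * (m + s) + 2 + 2 =
          2 * (m : ℝ) ^ 2 + 4 * m * s + 2 * (s : ℝ) ^ 2 + 3 * m + 3 * s + 4 := by ring
      rw [e1]
      linarith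
    have hA : P ^ 2 ≤ ((2 * ∑ p, (w p + 1).choose 2 : ℕ) : ℝ) := by
      have e1 : P ^ 2 = ∑ _p : Fin n, (m : ℝ) ^ 2 := by
        rw [sum_const, card_univ, Fintype.card_fin, nsmul_eq_mul, ← hqq, hP]
        ring
      rw [e1]
      push_cast
      rw [mul_sum]
      refine sum_le_sum fun p _ => ?_
      rw [choose_real]
      have g0 : (m : ℝ) ≤ w p := by exact_mod_cast hw1 p
      have g1 := mul_self_le_mul_self (Nat.cast_nonneg (α := ℝ) m) g0
      have g2 : (0 : ℝ) ≤ w p := Nat.cast_nonneg _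
      linarith
    have hfin : ((D : ℝ) + 1) * (D + 2) ≤ ((2 * ∑ p, (w p + 1).choose 2 : ℕ) : ℝ) := by
      refine le_trans ?_ hA
      have g1 : (0 : ℝ) ≤ D := Nat.cast_nonneg _
      have g2 : ((D : ℝ) + 1) * (D + 2) ≤ P * P :=
        mul_le_mul (by linarith) hDP (by linarith) hP0.le
      linarith
    have hfin2 : (D + 1) * (D + 2) ≤ 2 * ∑ p, (w p + 1).choose 2 := by exact_mod_cast hfin
    have h5 : 2 * (D + 2).choose 2 = (D + 1) * (D + 2) := Pool.Agent.TH2.NU.two_choose (D + 1)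
    have h6 : H932R7.Aw w = ∑ p, (w p + 1).choose 2 := rfl
    rw [h6]
    omega

end Pool.Agent.Y205.MD
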