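import Pool.Agent.H15.G.R_seed8.Y205.MD.Main
import Pool.Agent.H15.G.R_seed8.TH745.MN.Main

/-! Doubling for clusters indexed by a finite type; balanced raisings. -/

set_option autoImplicit false

namespace Pool.Agent.Y205.MD

open Finset Module Pool.Agent.TH176.Nag Pool.Agent.TH603.Sur Pool.Agent.TH763.DB Pool.Agent.TH2.NU
open Pool.Agent.TH745.MN (Sur_emb)

theorem cond_equiv {ι κ : Type} [Fintype ι] [Fintype κ] {w : ι → ℕ} {v : κ → ℕ} (σ : ι ≃ κ)
    (h : ∀ i, w i = v (σ i)) : Pool.Agent.TH603.Sur.cond w = Pool.Agent.TH603.Sur.cond v := by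
  unfold Pool.Agent.TH603.Sur.cond
  exact Fintype.sum_equiv σ _ _ fun i => by rw [h]

theorem Emp_equiv {ι κ : Type} {w : ι → ℕ} {v : κ → ℕ} {S : Set (ℤ × ℤ)} (σ : ι ≃ κ)
    (h : ∀ i, w i = v (σ i)) (hE : Emp w S) : Emp v S :=
  Emp_emb σ σ.injective (fun i => (h i).le) hE

theorem Sur_equiv {ι κ : Type} [Fintype ι] [Fintype κ] {w : ι → ℕ} {v : κ → ℕ}
    {S : Set (ℤ × ℤ)} (σ : ι ≃ κ) (h : ∀ i, w i = v (σ i)) (hE : Sur w S) : Sur v S :=
  Sur_emb σ σ.injective h (fun k _ => ⟨σ.symm k, σ.apply_symm_apply k⟩) hE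

/-- multiplicities raised by one on `J` -/
def lw {I : Type} [DecidableEq I] (b : I → ℕ) (J : Finset I) (i : I) : ℕ :=
  b i + if i ∈ J then 1 else 0

/-- **Doubling**, for clusters indexed by a finite type. -/
theorem doubling' {I : Type} [Fintype I] [DecidableEq I] [Nonempty I] {b : I → ℕ}
    (hb : ∀ i, 1 ≤ b i) {κ : Type} [Fintype κ] {e : κ → ℕ}
    {S : Finset (ℤ × ℤ)} (hpos : ∀ u ∈ S, 0 ≤ u.1 ∧ 0 ≤ u.2)
    (h1 : Sur (Sum.elim b e : I ⊕ κ → ℕ) (↑S : Set (ℤ × ℤ)))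
    (h2 : ∀ J : Finset I, ∀ k ∉ J, ∃ v : I → ℕ, (∀ i, lw b (insert k J) i ≤ v i) ∧
      (∀ i, b i ≠ b k → v i = lw b J i) ∧ Emp (Sum.elim v e : I ⊕ κ → ℕ) (↑S : Set (ℤ × ℤ)) ∧
      (((b k + 1) / 2 : ℕ) : ℝ) *
        (∑ i, (((v i + 1).choose 2 : ℕ) : ℝ) - ∑ i, (((lw b J i + 1).choose 2 : ℕ) : ℝ)) ≤
        ((b k : ℝ) + 1) * ∑ i ∈ Jᶜ, (((b i + 1) / 2 : ℕ) : ℝ)) :
    (S.card ≤ cond (Sum.elim (fun p : I × (Fin 2 × Fin 2) => qv (b p.1) p.2) e) →
      Emp (Sum.elim (fun p : I × (Fin 2 × Fin 2) => qv (b p.1) p.2) e) (↑S : Set (ℤ × ℤ))) ∧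
    (cond (Sum.elim (fun p : I × (Fin 2 × Fin 2) => qv (b p.1) p.2) e) ≤ S.card →
      Sur (Sum.elim (fun p : I × (Fin 2 × Fin 2) => qv (b p.1) p.2) e)
        (↑S : Set (ℤ × ℤ))) := by
  classical
  obtain ⟨N, hN⟩ : ∃ N, N = Fintype.card I := ⟨_, rfl⟩
  obtain ⟨σ⟩ : Nonempty (Fin N ≃ I) := ⟨(Fintype.equivFinOfCardEq hN.symm).symm⟩
  have hN0 : 0 < N := by rw [hN]; exact Fintype.card_pos
  have hσ : ∀ x : Fin N ⊕ κ, Sum.elim (fun i => b (σ i)) e x =
      Sum.elim b e ((Equiv.sumCongr σ (Equiv.refl κ)) x) := by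
    rintro (x | x) <;> rfl
  have hσ' : ∀ x : (Fin N × (Fin 2 × Fin 2)) ⊕ κ,
      Sum.elim (fun p : Fin N × (Fin 2 × Fin 2) => qv (b (σ p.1)) p.2) e x =
      Sum.elim (fun p : I × (Fin 2 × Fin 2) => qv (b p.1) p.2) e
        ((Equiv.sumCongr (Equiv.prodCongr σ (Equiv.refl _)) (Equiv.refl κ)) x) := by
    rintro (x | x) <;> rfl
  have key := doubling (N := N) (b := fun i => b (σ i)) (fun i => hb _) (e := e) hN0 hpos
    (Sur_equiv (Equiv.sumCongr σ (Equiv.refl κ)).symm (fun x => by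
      rw [hσ, Equiv.apply_symm_apply]) h1) (by
      intro J k hk
      obtain ⟨J', hJ'⟩ : ∃ J' : Finset I, J' = J.map σ.toEmbedding := ⟨_, rfl⟩
      have hmem : ∀ i, σ i ∈ J' ↔ i ∈ J := by
        intro i
        rw [hJ', mem_map]
        constructor
        · rintro ⟨j, hj, hij⟩
          rw [← σ.injective hij]
          exact hj
        · intro hi
          exact ⟨i, hi, rfl⟩
      have hins : ∀ i, σ i ∈ insert (σ k) J' ↔ i ∈ insert k J := by
        intro i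
        rw [mem_insert, mem_insert, hmem, σ.injective.eq_iff]
      have hlw : ∀ i, lw b J' (σ i) = lv (fun i => b (σ i)) J i := by
        intro i
        unfold lw lv
        simp only [hmem]
      have hlw' : ∀ i, lw b (insert (σ k) J') (σ i) = lv (fun i => b (σ i)) (insert k J) i := by
        intro i
        unfold lw lv
        simp only [hins]
      obtain ⟨v, g1, g2, g3, g4⟩ := h2 J' (σ k) (by rw [hmem]; exact hk)
      refine ⟨fun i => v (σ i), ?_, ?_, ?_, ?_⟩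
      · intro i
        rw [← hlw']
        exact g1 _
      · intro i hi
        rw [← hlw]
        exact g2 _ hi
      · exact Emp_equiv (Equiv.sumCongr σ (Equiv.refl κ)).symm (fun x => by
          rcases x with x | x
          · change v x = v (σ (σ.symm x))
            rw [Equiv.apply_symm_apply]
          · rfl) g3
      · have e1 : ∑ i : Fin N, (((v (σ i) + 1).choose 2 : ℕ) : ℝ) =
            ∑ i, (((v i + 1).choose 2 : ℕ) : ℝ) :=
          Equiv.sum_comp σ fun i => (((v i + 1).choose 2 : ℕ) : ℝ)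
        have e2 : ∑ i : Fin N, (((lv (fun i => b (σ i)) J i + 1).choose 2 : ℕ) : ℝ) =
            ∑ i, (((lw b J' i + 1).choose 2 : ℕ) : ℝ) := by
          simp only [← hlw]
          exact Equiv.sum_comp σ fun i => (((lw b J' i + 1).choose 2 : ℕ) : ℝ)
        have e3 : ∑ i ∈ Jᶜ, (((b (σ i) + 1) / 2 : ℕ) : ℝ) =
            ∑ i ∈ J'ᶜ, (((b i + 1) / 2 : ℕ) : ℝ) := by
          refine Finset.sum_equiv σ (fun i => ?_) (fun i _ => rfl)
          rw [mem_compl, mem_compl, hmem]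
        rw [e1, e2, e3]
        exact g4)
  have hc : cond (Sum.elim (fun p : Fin N × (Fin 2 × Fin 2) => qv (b (σ p.1)) p.2) e) =
      cond (Sum.elim (fun p : I × (Fin 2 × Fin 2) => qv (b p.1) p.2) e) :=
    cond_equiv (Equiv.sumCongr (Equiv.prodCongr σ (Equiv.refl _)) (Equiv.refl κ)) hσ'
  rw [hc] at key
  exact ⟨fun h => Emp_equiv _ hσ' (key.1 h), fun h => Sur_equiv _ hσ' (key.2 h)⟩

/-- a balanced raising -/
theorem balanced (A X : ℕ) (hA : 0 < A) (P : Finset (Fin A)) (hP : P.card ≤ X) :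
    ∃ u : Fin A → ℕ, (∀ j ∈ P, 1 ≤ u j) ∧ ∑ j, u j = X ∧
      (∑ j, (u j : ℝ) ^ 2) ≤ (X : ℝ) ^ 2 / A + A / 4 := by
  classical
  obtain ⟨a, ha⟩ : ∃ a, a = X / A := ⟨_, rfl⟩
  obtain ⟨t, ht⟩ : ∃ t, t = X % A := ⟨_, rfl⟩
  have hX : A * a + t = X := by rw [ha, ht]; exact Nat.div_add_mod X A
  have htA : t < A := by rw [ht]; exact Nat.mod_lt _ hA
  obtain ⟨T, hTP, hT⟩ : ∃ T : Finset (Fin A), (a = 0 → P ⊆ T) ∧ T.card = t := by
    by_cases h0 : a = 0
    · rw [h0, mul_zero, zero_add] at hX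
      obtain ⟨T, hT1, hT2⟩ := Finset.exists_superset_card_eq (s := P) (n := t) (by omega)
        (by rw [Fintype.card_fin]; omega)
      exact ⟨T, fun _ => hT1, hT2⟩
    · obtain ⟨T, hT1, hT2⟩ := Finset.exists_subset_card_eq
        (s := (univ : Finset (Fin A))) (n := t) (by rw [card_univ, Fintype.card_fin]; omega)
      exact ⟨T, fun h => absurd h h0, hT2⟩
  refine ⟨fun j => a + if j ∈ T then 1 else 0, ?_, ?_, ?_⟩
  · intro j hj
    by_cases h0 : a = 0
    · simp only [if_pos (hTP h0 hj)]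
      omega
    · simp only
      omega
  · rw [sum_add_distrib, sum_const, card_univ, Fintype.card_fin, smul_eq_mul, ← card_filter,
      Finset.filter_mem_eq_inter, Finset.univ_inter, hT, hX]
  · have e1 : ∀ j : Fin A, ((a + (if j ∈ T then 1 else 0) : ℕ) : ℝ) ^ 2 =
        (a : ℝ) ^ 2 + (if j ∈ T then (2 * a + 1 : ℝ) else 0) := by
      intro j
      split_ifs
      · push_cast; ring
      · push_cast; ring
    rw [sum_congr rfl fun j _ => e1 j, sum_add_distrib, sum_const, card_univ, Fintype.card_fin,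
      ← sum_filter, Finset.filter_mem_eq_inter, Finset.univ_inter, sum_const, hT, nsmul_eq_mul,
      nsmul_eq_mul]
    have hA' : (0 : ℝ) < A := by exact_mod_cast hA
    have hX' : (X : ℝ) = A * a + t := by rw [← hX]; push_cast; ring
    rw [hX']
    have e2 : (A * a + t : ℝ) ^ 2 / A + A / 4 - (A * a ^ 2 + t * (2 * a + 1)) =
        (t - A / 2) ^ 2 / A := by
      field_simp
      ring
    have e3 : (0 : ℝ) ≤ (t - A / 2) ^ 2 / A := by positivity
    linarith

end Pool.Agent.Y205.MD
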