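import Pool.Agent.H15.G.R_seed8.Y205.MD.Crit2

/-! The critical degrees: a weaker frequency condition, from the squares of the raisings. -/

set_option autoImplicit false

namespace Pool.Agent.Y205.MD

open Finset Module Pool.Agent.TH176.Nag Pool.Agent.TH603.Sur Pool.Agent.TH763.DB Pool.Agent.TH2.NU
open Pool.Agent.TH387.SH (TF coe_TF card_TF)

/-- the data of a critical degree -/
structure CQ (r s : ℕ) (A m : Fin r → ℕ) (Y : Fin r → ℝ) {κ ξ : Type} [Fintype κ] [Fintype ξ] (π : κ → Fin s)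
    (e : κ → ℕ) (x : ξ → ℕ) (c lo hi : Fin s → ℕ) (i0 : Fin r) (d K : ℕ) : Prop where
  hK : 2 ≤ K
  hr : r + s + 1 ≤ K ^ 2
  hA : ∀ i, 2 ≤ A i
  hm : ∀ i, 1 ≤ m i
  hc : ∀ g, c g = ∑ y, if π y = g then 1 else 0
  hc2 : ∀ g, 2 ≤ c g
  hlo : ∀ y, lo (π y) ≤ e y
  hhi : ∀ y, e y ≤ hi (π y)
  hx : ∀ y, x y ≤ 2 * m i0
  hT : (d : ℝ) ^ 2 + d < ∑ i, 4 * (A i : ℝ) * (m i * (m i + 1)) +
    (∑ y, (e y : ℝ) * (e y + 1) + ∑ y, (x y : ℝ) * (x y + 1))
  s1 : ∀ i, 2 * (K : ℝ) * (2 * m i + 1) ≤ d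
  s1x : 2 * (K : ℝ) * (2 * m i0 + 1 + (∑ y, (x y : ℝ)) / A i0) ≤ d
  s1' : ∀ g, 2 * (K : ℝ) * (hi g + 1) ≤ d
  s2 : ∀ i, (d : ℝ) + 3 ≤ 2 * K * (A i * (2 * m i))
  s2' : ∀ g, (d : ℝ) + 3 ≤ 2 * K * (c g * lo g)
  s3 : ∑ i, (A i : ℝ) * (2 * m i + 1) ^ 2 +
      (2 * (2 * m i0 + 1) * ∑ y, (x y : ℝ) + (∑ y, (x y : ℝ)) ^ 2 / A i0) +
      ∑ g, (c g : ℝ) * (hi g + 1) ^ 2 < ((d : ℝ) + 3 - 1 / (2 * K)) ^ 2
  hY0 : ∀ i, 0 ≤ Y i
  hY : ∀ i, 4 * ∑ j, (m j : ℝ) * A j ≤ 4 * m i * Y i + Y i ^ 2 / A i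
  e2 : ∀ i, 2 * (K : ℝ) * (2 * m i * A i + A i + Y i) ≤ A i * d
  e3 : ∀ i, (∑ y, (e y : ℝ) * (e y + 1) + ∑ y, (x y : ℝ) * (x y + 1) -
      ∑ g, (c g : ℝ) * (lo g : ℝ) ^ 2) + 4 * m i +
      2 * (A i + Y i) / A i + A i / 4 ≤ d

section
variable {r s : ℕ} {A m : Fin r → ℕ} {Y : Fin r → ℝ} {κ ξ : Type} [Fintype κ] [Fintype ξ] {π : κ → Fin s}
  {e : κ → ℕ} {x : ξ → ℕ} {c lo hi : Fin s → ℕ} {i0 : Fin r} {d K : ℕ}

theorem CQ.sur (h : CQ r s A m Y π e x c lo hi i0 d K) :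
    Sur (Sum.elim (fun p : Σ i, Fin (A i) => 2 * m p.1) (Sum.elim e x)) (TZ d) := by
  have hK0 : (2 : ℝ) ≤ K := by exact_mod_cast h.hK
  have hK1 : 1 / (2 * (K : ℝ)) < 3 := by
    rw [div_lt_iff₀ (by positivity)]
    linarith
  have hK2 : 0 < 1 / (2 * (K : ℝ)) := by positivity
  have hA0 : ∀ i, (0 : ℝ) ≤ A i := fun i => Nat.cast_nonneg _
  have hc0 : ∀ i, (0 : ℝ) ≤ c i := fun i => Nat.cast_nonneg _
  have hlohi : ∀ g, (lo g : ℝ) ≤ hi g := by
    intro g
    have h1 : 0 < c g := by have := h.hc2 g; omega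
    have h2 : ∃ y, π y = g := by
      by_contra hcon
      push Not at hcon
      rw [h.hc, sum_eq_zero fun y _ => if_neg (hcon y)] at h1
      omega
    obtain ⟨y, rfl⟩ := h2
    exact_mod_cast (h.hlo y).trans (h.hhi y)
  refine Sur_gen (mA := fun i => 2 * m i) h.hK h.hr π h.hc (i0 := i0) h.hhi h.hx h.hA h.hc2
    (R := _) rfl rfl ?_ ?_ ?_ ?_ ?_ ?_
  · intro i
    have := h.s1 i
    push_cast
    linarith
  · have := h.s1x
    push_cast
    linarith
  · intro g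
    have := h.s1' g
    linarith
  · intro i
    have g1 := h.s2 i
    have g2 : 2 * (K : ℝ) * (A i * (2 * m i)) ≤ 2 * K * (A i * (2 * m i + 1)) :=
      mul_le_mul_of_nonneg_left (mul_le_mul_of_nonneg_left (by linarith) (hA0 i)) (by positivity)
    push_cast
    linarith
  · intro g
    have g1 := h.s2' g
    have g2 : 2 * (K : ℝ) * (c g * lo g) ≤ 2 * K * (c g * (hi g + 1)) :=
      mul_le_mul_of_nonneg_left (mul_le_mul_of_nonneg_left (by linarith [hlohi g]) (hc0 g))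
        (by positivity)
    linarith
  · have := h.s3
    push_cast
    exact this

/-- emptiness for raisings in one class -/
theorem CQ.emp (h : CQ r s A m Y π e x c lo hi i0 d K) {S : Fin r → ℕ}
    (hS : ∀ i, 2 * m i * A i ≤ S i) (hS' : ∀ i, 2 * K * S i ≤ A i * d)
    (h3 : (d : ℝ) ^ 2 < ∑ i, (S i : ℝ) ^ 2 / A i + ∑ g, (c g : ℝ) * (lo g : ℝ) ^ 2)
    {v : (Σ i, Fin (A i)) → ℕ} (hv : ∀ i, ∑ j, v ⟨i, j⟩ = S i) :
    Emp (Sum.elim v (Sum.elim e x)) (TZ d) := by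
  have hK0 : (2 : ℝ) ≤ K := by exact_mod_cast h.hK
  have key := Emp_gen (K := K) (d := d) (by have := h.hK; omega) h.hr π h.hc (v := v) h.hlo h.hhi
    (by
      intro i
      rw [hv]
      have g1 := h.s2 i
      have g2 : ((2 * m i * A i : ℕ) : ℝ) ≤ (S i : ℝ) := by exact_mod_cast hS i
      push_cast at g2
      have g3 : 2 * (K : ℝ) * (2 * m i * A i) ≤ 2 * K * S i :=
        mul_le_mul_of_nonneg_left g2 (by positivity)
      have g4 : (d : ℝ) < ((2 * K * S i : ℕ) : ℝ) := by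
        push_cast
        linarith
      exact_mod_cast g4)
    (by
      intro g
      have g1 := h.s2' g
      have g4 : (d : ℝ) < ((2 * K * (c g * lo g) : ℕ) : ℝ) := by
        push_cast
        linarith
      exact_mod_cast g4)
    (by
      intro i
      rw [hv]
      exact hS' i)
    (by
      intro g
      have g1 := h.s1' g
      have g4 : ((2 * K * hi g : ℕ) : ℝ) ≤ (d : ℝ) := by
        push_cast
        linarith
      exact_mod_cast g4)
    (by
      simp only [hv]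
      exact h3)
  have hinj : Function.Injective
      (Sum.map id Sum.inl : (Σ i, Fin (A i)) ⊕ κ → (Σ i, Fin (A i)) ⊕ (κ ⊕ ξ)) :=
    Sum.map_injective.2 ⟨Function.injective_id, Sum.inl_injective⟩
  refine Emp_emb _ hinj ?_ key
  rintro (p | p)
  · exact le_rfl
  · exact le_rfl

/-- the hypothesis of the doubling theorem -/
theorem CQ.raise (h : CQ r s A m Y π e x c lo hi i0 d K) (J : Finset (Σ i, Fin (A i)))
    (k : Σ i, Fin (A i)) (hk : k ∉ J) :
    ∃ v : (Σ i, Fin (A i)) → ℕ,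
      (∀ z, lw (fun z => 2 * m z.1) (insert k J) z ≤ v z) ∧
      (∀ z : Σ i, Fin (A i), 2 * m z.1 ≠ 2 * m k.1 → v z = lw (fun z => 2 * m z.1) J z) ∧
      Emp (Sum.elim v (Sum.elim e x)) (TZ d) ∧
      (((2 * m k.1 + 1) / 2 : ℕ) : ℝ) *
        (∑ x, (((v x + 1).choose 2 : ℕ) : ℝ) -
          ∑ x, (((lw (fun x => 2 * m x.1) J x + 1).choose 2 : ℕ) : ℝ)) ≤
        (((2 * m k.1 : ℕ) : ℝ) + 1) * ∑ x ∈ Jᶜ, (((2 * m x.1 + 1) / 2 : ℕ) : ℝ) := by
  classical
  obtain ⟨k1, k2⟩ := k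
  simp only
  have hhalf : ∀ a : ℕ, (2 * a + 1) / 2 = a := fun a => by omega
  simp only [hhalf]
  have hK0 : (2 : ℝ) ≤ K := by exact_mod_cast h.hK
  have hA0 : ∀ i, (0 : ℝ) < A i := fun i => by
    have : 0 < A i := by have := h.hA i; omega
    exact_mod_cast this
  obtain ⟨G, hG⟩ : ∃ G : ℝ, G = ∑ g, (c g : ℝ) * (lo g : ℝ) ^ 2 := ⟨_, rfl⟩
  have hG0 : 0 ≤ G := by rw [hG]; positivity
  have hm0 : ∀ i, (0 : ℝ) < m i := fun i => by
    have : 0 < m i := by have := h.hm i; omega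
    exact_mod_cast this
  -- the number of raised clusters in a class
  obtain ⟨jj, hjj⟩ : ∃ jj : Fin r → ℕ, ∀ i, jj i = ∑ j : Fin (A i), if (⟨i, j⟩ : Σ i, Fin (A i)) ∈ J
    then 1 else 0 := ⟨_, fun _ => rfl⟩
  have hjA : ∀ i, jj i ≤ A i := by
    intro i
    rw [hjj]
    calc ∑ j : Fin (A i), (if (⟨i, j⟩ : Σ i, Fin (A i)) ∈ J then 1 else 0) ≤
        ∑ j : Fin (A i), 1 := sum_le_sum fun j _ => by split_ifs <;> omega
      _ = A i := by simp
  have hjk : jj k1 + 1 ≤ A k1 := by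
    rw [hjj]
    have h1 : ∑ j : Fin (A k1), (if (⟨k1, j⟩ : Σ i, Fin (A i)) ∈ J then 1 else 0) <
        ∑ j : Fin (A k1), 1 := by
      refine sum_lt_sum (fun j _ => by split_ifs <;> omega) ⟨k2, mem_univ _, ?_⟩
      rw [if_neg hk]
      omega
    have h2 : ∑ j : Fin (A k1), 1 = A k1 := by simp
    omega
  have hins : ∀ x : Σ i, Fin (A i), x ≠ ⟨k1, k2⟩ →
      lw (fun x => 2 * m x.1) (insert ⟨k1, k2⟩ J) x = lw (fun x => 2 * m x.1) J x := by
    intro x hx
    unfold lw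
    simp [mem_insert, hx]
  have hmi : ∀ j : Fin (A k1), (⟨k1, j⟩ : Σ i, Fin (A i)) ∈ insert (⟨k1, k2⟩ : Σ i, Fin (A i)) J ↔
      (j = k2 ∨ (⟨k1, j⟩ : Σ i, Fin (A i)) ∈ J) := by
    intro j
    rw [mem_insert]
    simp
  -- the vector
  let V : (Fin (A k1) → ℕ) → (Σ i, Fin (A i)) → ℕ := fun u x =>
    if x.1 = k1 then 2 * m k1 + Function.extend
      (fun j : Fin (A k1) => (⟨k1, j⟩ : Σ i, Fin (A i))) u (fun _ => 0) x
    else lw (fun x => 2 * m x.1) J x
  have hV1 : ∀ u j, V u ⟨k1, j⟩ = 2 * m k1 + u j := by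
    intro u j
    have hinj : Function.Injective fun j : Fin (A k1) => (⟨k1, j⟩ : Σ i, Fin (A i)) := by
      intro a b hab
      exact eq_of_heq (Sigma.mk.inj_iff.1 hab).2
    have e1 := hinj.extend_apply u (fun _ => 0) j
    show (if k1 = k1 then 2 * m k1 + Function.extend
      (fun j : Fin (A k1) => (⟨k1, j⟩ : Σ i, Fin (A i))) u (fun _ => 0) ⟨k1, j⟩ else _) = _
    rw [if_pos rfl, e1]
  have hV2 : ∀ u i j, i ≠ k1 → V u ⟨i, j⟩ = lw (fun x => 2 * m x.1) J ⟨i, j⟩ := by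
    intro u i j hi
    exact if_neg hi
  have hVs1 : ∀ u, ∑ j, V u ⟨k1, j⟩ = 2 * m k1 * A k1 + ∑ j, u j := by
    intro u
    simp only [hV1]
    rw [sum_add_distrib, sum_const, card_univ, Fintype.card_fin, smul_eq_mul]
    ring
  have hVs2 : ∀ u i, i ≠ k1 → ∑ j, V u ⟨i, j⟩ = 2 * m i * A i + jj i := by
    intro u i hi
    have e1 : ∀ j, V u ⟨i, j⟩ = 2 * m i + if (⟨i, j⟩ : Σ i, Fin (A i)) ∈ J then 1 else 0 :=
      fun j => hV2 u i j hi
    simp only [e1]
    rw [sum_add_distrib, sum_const, card_univ, Fintype.card_fin, smul_eq_mul, hjj]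
    ring
  -- emptiness
  have hEmp : ∀ (u : Fin (A k1) → ℕ) (X : ℕ), ∑ j, u j = X →
      2 * K * (2 * m k1 * A k1 + X) ≤ A k1 * d →
      (d : ℝ) ^ 2 < ∑ i, (if i = k1 then (2 * (m i : ℝ) * A i + X) ^ 2 / A i
        else (2 * (m i : ℝ) * A i + jj i) ^ 2 / A i) + G →
      Emp (Sum.elim (V u) (Sum.elim e x)) (TZ d) := by
    intro u X hu hX hW
    rw [hG] at hW
    refine h.emp (S := fun i => 2 * m i * A i + if i = k1 then X else jj i) ?_ ?_ ?_ ?_
    · intro i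
      exact Nat.le_add_right _ _
    · intro i
      by_cases hi : i = k1
      · subst hi
        simp only [if_true]
        exact hX
      · simp only [if_neg hi]
        have g1 := h.s1 i
        have g2 : (2 * K * (2 * m i + 1) : ℕ) ≤ d := by
          have : ((2 * K * (2 * m i + 1) : ℕ) : ℝ) ≤ (d : ℝ) := by push_cast; exact g1
          exact_mod_cast this
        calc 2 * K * (2 * m i * A i + jj i) ≤ 2 * K * (2 * m i * A i + A i) :=
              Nat.mul_le_mul_left _ (Nat.add_le_add_left (hjA i) _)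
          _ = A i * (2 * K * (2 * m i + 1)) := by ring
          _ ≤ A i * d := Nat.mul_le_mul_left _ g2
    · refine lt_of_lt_of_le hW (le_of_eq ?_)
      congr 1
      refine sum_congr rfl fun i _ => ?_
      split_ifs
      · push_cast; rfl
      · push_cast; rfl
    · intro i
      by_cases hi : i = k1
      · subst hi
        simp only [if_true]
        rw [hVs1, hu]
      · simp only [if_neg hi]
        exact hVs2 u i hi
  -- the weight of the complement
  obtain ⟨P, hP⟩ : ∃ P : ℝ, P = ∑ x ∈ Jᶜ, (m x.1 : ℝ) := ⟨_, rfl⟩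
  have hP' : P = ∑ i, (m i : ℝ) * (A i - jj i) := by
    have e1 : P = ∑ x, (if x ∈ J then 0 else (m x.1 : ℝ)) := by
      rw [hP, ← sum_filter_add_sum_filter_not univ (fun x => x ∈ J)
        (fun x => if x ∈ J then (0 : ℝ) else (m x.1 : ℝ))]
      have e2 : ∑ x ∈ univ.filter (fun x => x ∈ J), (if x ∈ J then (0 : ℝ) else (m x.1 : ℝ)) = 0 :=
        sum_eq_zero fun x hx => if_pos (mem_filter.1 hx).2
      have e3 : (univ.filter fun x => x ∉ J) = Jᶜ := by
        ext x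
        simp
      rw [e2, zero_add, e3]
      exact sum_congr rfl fun x hx => (if_neg (mem_compl.1 hx)).symm
    rw [e1, Fintype.sum_sigma]
    refine sum_congr rfl fun i _ => ?_
    have e2 : ∀ j : Fin (A i), (if (⟨i, j⟩ : Σ i, Fin (A i)) ∈ J then 0 else (m i : ℝ)) =
        m i - m i * (((if (⟨i, j⟩ : Σ i, Fin (A i)) ∈ J then 1 else 0 : ℕ)) : ℝ) := by
      intro j
      split_ifs <;> simp
    rw [sum_congr rfl fun j _ => e2 j, sum_sub_distrib, ← mul_sum, sum_const, card_univ,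
      Fintype.card_fin, nsmul_eq_mul, hjj i]
    push_cast
    ring
  have hPk : (m k1 : ℝ) ≤ P := by
    rw [hP]
    exact single_le_sum (f := fun x : Σ i, Fin (A i) => (m x.1 : ℝ))
      (fun x _ => (hm0 x.1).le) (mem_compl.2 hk)
  have hPmax : P ≤ ∑ j, (m j : ℝ) * A j := by
    rw [hP']
    refine sum_le_sum fun i _ => mul_le_mul_of_nonneg_left ?_ (hm0 i).le
    have : (0 : ℝ) ≤ jj i := Nat.cast_nonneg _
    linarith
  rw [← hP]
  -- the cost
  have hcost : ∀ u : Fin (A k1) → ℕ, ∑ x, (((V u x + 1).choose 2 : ℕ) : ℝ) -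
      ∑ x, (((lw (fun x => 2 * m x.1) J x + 1).choose 2 : ℕ) : ℝ) =
      ((4 * (m k1 : ℝ) + 1) * (((∑ j, u j : ℕ) : ℝ) - jj k1) + ∑ j, (u j : ℝ) ^ 2 - jj k1) / 2 := by
    intro u
    rw [Fintype.sum_sigma, Fintype.sum_sigma, ← sum_sub_distrib, Finset.sum_eq_single k1]
    · rw [← sum_sub_distrib]
      have e1 : ∀ j : Fin (A k1), (((V u ⟨k1, j⟩ + 1).choose 2 : ℕ) : ℝ) -
          (((lw (fun x => 2 * m x.1) J ⟨k1, j⟩ + 1).choose 2 : ℕ) : ℝ) =
          ((4 * (m k1 : ℝ) + 1) * ((u j : ℝ) - ((if (⟨k1, j⟩ : Σ i, Fin (A i)) ∈ J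
            then 1 else 0 : ℕ) : ℝ)) + ((u j : ℝ) ^ 2 - ((if (⟨k1, j⟩ : Σ i, Fin (A i)) ∈ J
            then 1 else 0 : ℕ) : ℝ))) / 2 := by
        intro j
        rw [choose_real, choose_real, hV1]
        unfold lw
        split_ifs
        · push_cast; ring
        · push_cast; ring
      rw [sum_congr rfl fun j _ => e1 j, ← sum_div, sum_add_distrib, ← mul_sum,
        sum_sub_distrib, sum_sub_distrib]
      have e2 : ∑ j : Fin (A k1), ((if (⟨k1, j⟩ : Σ i, Fin (A i)) ∈ J then 1 else 0 : ℕ) : ℝ) =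
          jj k1 := by
        rw [hjj k1]
        push_cast
        rfl
      rw [e2]
      push_cast
      ring
    · intro i _ hi
      rw [sub_eq_zero]
      exact sum_congr rfl fun j _ => by rw [hV2 u i j hi]
    · intro h
      exact absurd (mem_univ _) h
  have hfin : ∀ (u : Fin (A k1) → ℕ) (X : ℕ), ∑ j, u j = X →
      (∀ j, (if (⟨k1, j⟩ : Σ i, Fin (A i)) ∈ insert (⟨k1, k2⟩ : Σ i, Fin (A i)) J
        then 1 else 0) ≤ u j) →
      2 * K * (2 * m k1 * A k1 + X) ≤ A k1 * d →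
      (d : ℝ) ^ 2 < ∑ i, (if i = k1 then (2 * (m i : ℝ) * A i + X) ^ 2 / A i
        else (2 * (m i : ℝ) * A i + jj i) ^ 2 / A i) + G →
      (m k1 : ℝ) * (((4 * (m k1 : ℝ) + 1) * ((X : ℝ) - jj k1) + ∑ j, (u j : ℝ) ^ 2 -
        jj k1) / 2) ≤ (((2 * m k1 : ℕ) : ℝ) + 1) * P →
      ∃ v : (Σ i, Fin (A i)) → ℕ,
      (∀ x, lw (fun x => 2 * m x.1) (insert ⟨k1, k2⟩ J) x ≤ v x) ∧
      (∀ x : Σ i, Fin (A i), 2 * m x.1 ≠ 2 * m k1 → v x = lw (fun x => 2 * m x.1) J x) ∧
      Emp (Sum.elim v (Sum.elim e x)) (TZ d) ∧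
      (m k1 : ℝ) * (∑ x, (((v x + 1).choose 2 : ℕ) : ℝ) -
          ∑ x, (((lw (fun x => 2 * m x.1) J x + 1).choose 2 : ℕ) : ℝ)) ≤
        (((2 * m k1 : ℕ) : ℝ) + 1) * P := by
    intro u X hu hu1 hX hW hC
    refine ⟨V u, ?_, ?_, hEmp u X hu hX hW, ?_⟩
    · rintro ⟨i, j⟩
      by_cases hi : i = k1
      · subst hi
        rw [hV1]
        unfold lw
        exact Nat.add_le_add_left (hu1 j) _
      · rw [hV2 u i j hi, hins]
        intro h
        exact hi (congrArg Sigma.fst h)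
    · rintro ⟨i, j⟩ hx
      exact hV2 u i j fun hi => hx (by simp only [hi])
    · rw [hcost u, hu]
      exact hC
  by_cases hW0 : (d : ℝ) ^ 2 < ∑ i, (if i = k1 then (2 * (m i : ℝ) * A i + ((jj k1 + 1 : ℕ) : ℝ)) ^ 2 / A i
        else (2 * (m i : ℝ) * A i + jj i) ^ 2 / A i) + G
  · -- raising of one cluster
    obtain ⟨u, hu⟩ : ∃ u : Fin (A k1) → ℕ, ∀ j, u j =
      if (⟨k1, j⟩ : Σ i, Fin (A i)) ∈ insert (⟨k1, k2⟩ : Σ i, Fin (A i)) J then 1 else 0 :=
      ⟨_, fun _ => rfl⟩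
    have hsum : ∑ j, u j = jj k1 + 1 := by
      have e1 : ∀ j, u j = (if (⟨k1, j⟩ : Σ i, Fin (A i)) ∈ J then 1 else 0) +
          if j = k2 then 1 else 0 := by
        intro j
        rw [hu]
        by_cases hj : j = k2
        · subst hj
          rw [if_pos (mem_insert_self _ _), if_neg hk, if_pos rfl]
        · simp only [hmi, hj, false_or, if_false, add_zero]
      rw [sum_congr rfl fun j _ => e1 j, sum_add_distrib, hjj k1, sum_ite_eq' univ k2,
        if_pos (mem_univ _)]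
    have hsq : ∑ j, (u j : ℝ) ^ 2 = jj k1 + 1 := by
      have e1 : ∀ j, (u j : ℝ) ^ 2 = (u j : ℝ) := by
        intro j
        rw [hu]
        split_ifs <;> simp
      rw [sum_congr rfl fun j _ => e1 j]
      have : ((∑ j, u j : ℕ) : ℝ) = ((jj k1 + 1 : ℕ) : ℝ) := by rw [hsum]
      push_cast at this
      exact this
    refine hfin u (jj k1 + 1) hsum (fun j => (hu j).ge) ?_ hW0 ?_
    · have g1 := h.s1 k1
      have g2 : (2 * K * (2 * m k1 + 1) : ℕ) ≤ d := by
        have : ((2 * K * (2 * m k1 + 1) : ℕ) : ℝ) ≤ (d : ℝ) := by push_cast; exact g1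
        exact_mod_cast this
      calc 2 * K * (2 * m k1 * A k1 + (jj k1 + 1)) ≤ 2 * K * (2 * m k1 * A k1 + A k1) :=
            Nat.mul_le_mul_left _ (Nat.add_le_add_left hjk _)
        _ = A k1 * (2 * K * (2 * m k1 + 1)) := by ring
        _ ≤ A k1 * d := Nat.mul_le_mul_left _ g2
    · rw [hsq]
      push_cast
      have e : (m k1 : ℝ) * (((4 * (m k1 : ℝ) + 1) * ((jj k1 : ℝ) + 1 - jj k1) + (jj k1 + 1) -
          jj k1) / 2) = (2 * m k1 + 1) * m k1 := by ring
      rw [e]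
      exact mul_le_mul_of_nonneg_left hPk (by have := hm0 k1; linarith)
  · -- balanced raisings
    have hex : ∃ X : ℕ, jj k1 + 1 < X ∧ (d : ℝ) ^ 2 <
        ∑ i, (if i = k1 then (2 * (m i : ℝ) * A i + X) ^ 2 / A i
        else (2 * (m i : ℝ) * A i + jj i) ^ 2 / A i) + G := by
      refine ⟨A k1 * (d + 2), ?_, ?_⟩
      · have : A k1 * 2 ≤ A k1 * (d + 2) := Nat.mul_le_mul_left _ (by omega)
        have := h.hA k1
        omega
      · have g1 : (d : ℝ) ^ 2 < (2 * (m k1 : ℝ) * A k1 + ((A k1 * (d + 2) : ℕ) : ℝ)) ^ 2 / A k1 := by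
          rw [lt_div_iff₀ (hA0 k1)]
          push_cast
          have hA1 : (1 : ℝ) ≤ A k1 := by
            have := h.hA k1
            exact_mod_cast (by omega : 1 ≤ A k1)
          have hd0 : (0 : ℝ) ≤ d := Nat.cast_nonneg _
          have g2 : (A k1 : ℝ) * (d + 2) ≤ 2 * m k1 * A k1 + A k1 * (d + 2) := by
            have : 0 ≤ 2 * (m k1 : ℝ) * A k1 := by have := hm0 k1; have := hA0 k1; positivity
            linarith
          have g3 : ((A k1 : ℝ) * (d + 2)) ^ 2 ≤ (2 * m k1 * A k1 + A k1 * (d + 2)) ^ 2 :=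
            pow_le_pow_left₀ (by positivity) g2 2
          refine lt_of_lt_of_le ?_ g3
          have g4 : (d : ℝ) ^ 2 * A k1 < (d + 2) ^ 2 * A k1 :=
            mul_lt_mul_of_pos_right (by nlinarith) (hA0 k1)
          have g5 : (d + 2 : ℝ) ^ 2 * A k1 ≤ (A k1 * (d + 2)) ^ 2 := by
            have : ((A k1 : ℝ) * (d + 2)) ^ 2 = (d + 2) ^ 2 * A k1 * A k1 := by ring
            rw [this]
            exact le_mul_of_one_le_right (by positivity) hA1
          linarith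
        have g2 : (2 * (m k1 : ℝ) * A k1 + ((A k1 * (d + 2) : ℕ) : ℝ)) ^ 2 / A k1 ≤
            ∑ i, (if i = k1 then (2 * (m i : ℝ) * A i + ((A k1 * (d + 2) : ℕ) : ℝ)) ^ 2 / A i
              else (2 * (m i : ℝ) * A i + jj i) ^ 2 / A i) := by
          have g3 := single_le_sum (f := fun i => (if i = k1 then
            (2 * (m i : ℝ) * A i + ((A k1 * (d + 2) : ℕ) : ℝ)) ^ 2 / A i
              else (2 * (m i : ℝ) * A i + jj i) ^ 2 / A i)) (fun i _ => by
                have := hA0 i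
                split_ifs <;> positivity) (mem_univ k1)
          simp only [if_true] at g3
          exact g3
        linarith
    obtain ⟨X, hX1, hX2, hX3⟩ : ∃ X : ℕ, jj k1 + 1 < X ∧ (d : ℝ) ^ 2 <
        ∑ i, (if i = k1 then (2 * (m i : ℝ) * A i + X) ^ 2 / A i
        else (2 * (m i : ℝ) * A i + jj i) ^ 2 / A i) + G ∧
        ∑ i, (if i = k1 then (2 * (m i : ℝ) * A i + ((X : ℝ) - 1)) ^ 2 / A i
        else (2 * (m i : ℝ) * A i + jj i) ^ 2 / A i) + G ≤
          (d : ℝ) ^ 2 := by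
      obtain ⟨g1, g2⟩ := Nat.find_spec hex
      refine ⟨Nat.find hex, g1, g2, ?_⟩
      obtain ⟨Y, hY⟩ : ∃ Y, Nat.find hex = Y + 1 := ⟨Nat.find hex - 1, by omega⟩
      rw [hY] at g1 ⊢
      have e : (((Y + 1 : ℕ) : ℝ) - 1) = (Y : ℝ) := by push_cast; ring
      rw [e]
      rcases Nat.lt_or_ge (jj k1 + 1) Y with h2 | h2
      · have h3 := Nat.find_min hex (m := Y) (by omega)
        push Not at h3
        exact h3 h2
      · have : Y = jj k1 + 1 := by omega
        rw [this]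
        push Not at hW0
        exact hW0
    have hXr : (1 : ℝ) ≤ X := by exact_mod_cast (by omega : 1 ≤ X)
    have hcore := core2 (A := fun i => (A i : ℝ)) (m := fun i => (m i : ℝ))
      (jj := fun i => (jj i : ℝ)) (k := k1) (d := d) (X := X) (P := P) (G := G)
      hA0 hm0 (fun i => Nat.cast_nonneg _) hP' h.hT hX3
    have he3 := h.e3 k1
    rw [← hG] at he3
    obtain ⟨M, hM⟩ : ∃ M : ℝ, M = m k1 := ⟨_, rfl⟩
    obtain ⟨a, ha⟩ : ∃ a : ℝ, a = A k1 := ⟨_, rfl⟩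
    obtain ⟨y, hy⟩ : ∃ y : ℝ, y = Y k1 := ⟨_, rfl⟩
    obtain ⟨W, hW⟩ : ∃ W : ℝ, W = ∑ y, (e y : ℝ) * (e y + 1) + ∑ y, (x y : ℝ) * (x y + 1) :=
      ⟨_, rfl⟩
    rw [← hW] at hcore he3
    obtain ⟨t, htt⟩ : ∃ t : ℝ, t = ∑ i, (m i : ℝ) * A i := ⟨_, rfl⟩
    have hM0 : 0 < M := by rw [hM]; exact hm0 _
    have ha0 : 0 < a := by rw [ha]; exact hA0 _
    have ha1 : 1 ≤ a := by
      rw [ha]
      have := h.hA k1
      exact_mod_cast (by omega : 1 ≤ A k1)
    have hy0 : 0 ≤ y := by rw [hy]; exact h.hY0 k1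
    have he2 := h.e2 k1
    have hYk := h.hY k1
    rw [← hM, ← ha] at hcore
    rw [← hM, ← ha, ← hy] at he2
    rw [← hM, ← ha, ← hy] at he3
    rw [← hM, ← ha, ← hy, ← htt] at hYk
    rw [← htt] at hPmax
    have hj0 : (0 : ℝ) ≤ jj k1 := Nat.cast_nonneg _
    have hjX : (jj k1 : ℝ) ≤ X - 2 := by
      have : jj k1 + 2 ≤ X := by omega
      have : ((jj k1 + 2 : ℕ) : ℝ) ≤ (X : ℝ) := by exact_mod_cast this
      push_cast at this
      linarith
    have hja : (jj k1 : ℝ) ≤ a := by rw [ha]; exact_mod_cast hjA k1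
    have hsq0 : 0 ≤ ((X : ℝ) - 1) ^ 2 / a := by positivity
    have hta : 0 ≤ 2 * (a + y) / a := by positivity
    have hWG : (W - G) + 4 * M ≤ d := by linarith
    have hcore2 : 4 * M * (X - jj k1) + ((X : ℝ) - 1) ^ 2 / a < 4 * P := by nlinarith
    -- the bound for `X`
    have hXP : M * (X - jj k1) ≤ P := by linarith
    have hXt : (X : ℝ) - jj k1 ≤ P / M := by
      rw [le_div_iff₀ hM0]
      linarith
    have hXa : (X : ℝ) ≤ a + y := by
      by_contra hcon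
      push Not at hcon
      have g1 : 4 * M * y ≤ 4 * M * (X - jj k1) :=
        mul_le_mul_of_nonneg_left (by linarith) (by positivity)
      have g2 : y ^ 2 / a ≤ ((X : ℝ) - 1) ^ 2 / a := by
        apply div_le_div_of_nonneg_right _ ha0.le
        exact pow_le_pow_left₀ hy0 (by linarith) 2
      linarith
    have hXd : 2 * K * (2 * m k1 * A k1 + X) ≤ A k1 * d := by
      have g1 : 2 * (K : ℝ) * (2 * M * a + X) ≤ 2 * K * (2 * M * a + a + y) :=
        mul_le_mul_of_nonneg_left (by linarith) (by positivity)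
      have g2 : ((2 * K * (2 * m k1 * A k1 + X) : ℕ) : ℝ) ≤ ((A k1 * d : ℕ) : ℝ) := by
        push_cast
        rw [← hM, ← ha]
        exact g1.trans he2
      exact_mod_cast g2
    obtain ⟨u, hu1, hu2, hu3⟩ := balanced (A k1) X (by have := h.hA k1; omega)
      (univ.filter fun j => (⟨k1, j⟩ : Σ i, Fin (A i)) ∈ insert (⟨k1, k2⟩ : Σ i, Fin (A i)) J) (by
        have e1 : (univ.filter fun j => (⟨k1, j⟩ : Σ i, Fin (A i)) ∈
            insert (⟨k1, k2⟩ : Σ i, Fin (A i)) J).card ≤ jj k1 + 1 := by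
          have e2 : (univ.filter fun j => (⟨k1, j⟩ : Σ i, Fin (A i)) ∈
            insert (⟨k1, k2⟩ : Σ i, Fin (A i)) J) ⊆
              insert k2 (univ.filter fun j => (⟨k1, j⟩ : Σ i, Fin (A i)) ∈ J) := by
            intro j hj
            rw [mem_filter, hmi] at hj
            rw [mem_insert, mem_filter]
            rcases hj.2 with h2 | h2
            · exact Or.inl h2
            · exact Or.inr ⟨mem_univ _, h2⟩
          refine (card_le_card e2).trans ((card_insert_le _ _).trans ?_)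
          rw [card_filter, hjj k1]
        omega)
    refine hfin u X hu2 ?_ hXd hX2 ?_
    · intro j
      split_ifs with hj
      · exact hu1 j (mem_filter.2 ⟨mem_univ _, hj⟩)
      · exact Nat.zero_le _
    · rw [← ha] at hu3
      rw [← hM]
      have hPM : 0 ≤ P := by linarith
      have e1 : (((2 * m k1 : ℕ) : ℝ) + 1) = 2 * M + 1 := by rw [hM]; push_cast; ring
      rw [e1]
      -- twice the cost
      have g1 : (4 * M + 1) * ((X : ℝ) - jj k1) + ∑ j, (u j : ℝ) ^ 2 - jj k1 ≤ 4 * P + P / M := by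
        have g2 : (X : ℝ) ^ 2 / a = ((X : ℝ) - 1) ^ 2 / a + (2 * X - 1) / a := by
          field_simp
          ring
        have g3 : (2 * (X : ℝ) - 1) / a ≤ 2 * (a + y) / a := by
          apply div_le_div_of_nonneg_right _ ha0.le
          linarith
        have g4 : (X : ℝ) - 2 * jj k1 ≤ P / M := by linarith
        nlinarith
      have g5 : M * (((4 * M + 1) * ((X : ℝ) - jj k1) + ∑ j, (u j : ℝ) ^ 2 - jj k1) / 2) ≤
          M * ((4 * P + P / M) / 2) := by
        apply mul_le_mul_of_nonneg_left _ hM0.le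
        linarith
      have g6 : M * ((4 * P + P / M) / 2) = (2 * M + 1 / 2) * P := by
        field_simp
        ring
      have g7 : (2 * M + 1 / 2) * P ≤ (2 * M + 1) * P :=
        mul_le_mul_of_nonneg_right (by linarith) hPM
      linarith

/-- **The critical degree.** -/
theorem CQ.dbl (h : CQ r s A m Y π e x c lo hi i0 d K) :
    ((d + 2).choose 2 ≤ CDcond A m e x →
      Emp (Sum.elim (fun p : (Σ i, Fin (A i)) × (Fin 2 × Fin 2) => m p.1.1) (Sum.elim e x))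
        (TZ d)) ∧
    (CDcond A m e x ≤ (d + 2).choose 2 →
      Sur (Sum.elim (fun p : (Σ i, Fin (A i)) × (Fin 2 × Fin 2) => m p.1.1) (Sum.elim e x))
        (TZ d)) := by
  classical
  have hne : Nonempty (Σ i, Fin (A i)) := by
    have := h.hA i0
    exact ⟨⟨i0, ⟨0, by omega⟩⟩⟩
  have key := doubling' (b := fun p : Σ i, Fin (A i) => 2 * m p.1) (fun p => by
      have := h.hm p.1
      omega) (e := Sum.elim e x) (S := TF d) (fun u hu => by
      have h1 : u ∈ TZ d := by rw [← coe_TF]; exact mem_coe.2 hu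
      exact ⟨h1.1, h1.2.1⟩) (by rw [coe_TF]; exact h.sur) (by
      intro J k hk
      rw [coe_TF]
      exact h.raise J k hk)
  have hq : (fun p : (Σ i, Fin (A i)) × (Fin 2 × Fin 2) => qv (2 * m p.1.1) p.2) =
      fun p => m p.1.1 := by
    funext p
    unfold qv
    have := p.2.1.2
    omega
  rw [hq, coe_TF, card_TF] at key
  have hcond : cond (Sum.elim (fun p : (Σ i, Fin (A i)) × (Fin 2 × Fin 2) => m p.1.1)
      (Sum.elim e x)) = CDcond A m e x := by
    unfold Pool.Agent.TH603.Sur.cond CDcond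
    rw [Fintype.sum_sum_type, Fintype.sum_sum_type]
    simp only [Sum.elim_inl, Sum.elim_inr]
    rw [Fintype.sum_prod_type, Fintype.sum_sigma]
    congr 1
    refine sum_congr rfl fun i _ => ?_
    simp only [sum_const, card_univ, Fintype.card_fin, Fintype.card_prod, smul_eq_mul]
    ring
  rw [hcond] at key
  exact key

end

end Pool.Agent.Y205.MD
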