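import Pool.Agent.H15.G.R_seed8.TH2.NU.Coll

/-! Collision of four points, all clusters at once, with exponents which depend on the cluster. -/

set_option autoImplicit false

namespace Pool.Agent.Y205.MD

open Finset Pool.Agent.TH176.Nag Pool.Agent.TH603.Sur Pool.Agent.TH763.DB Pool.Agent.TH2.NU

/-- **Collision**, with exponents which depend on the cluster. -/
theorem collideG {N : ℕ} {κ : Type} {w : Fin N → Fin 2 × Fin 2 → ℕ} {e : κ → ℕ} {K : Type} [Field K]
    [CharZero K] (Λ : Fin N → Set (ℕ × ℕ))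
    (hΛ : ∀ i, ∀ kl ∈ Λ i, ∀ a : Fin 2 × Fin 2, ∀ p q : ℕ, 2 * p + 1 ≤ kl.1 + a.1 → 2 * q + 1 ≤ kl.2 + a.2 →
      p + q < w i a)
    (x y : Fin N → K) (x' y' : κ → K)
    (hx : ∀ i, x i ≠ 0) (hy : ∀ i, y i ≠ 0) (hx' : ∀ i, x' i ≠ 0) (hy' : ∀ i, y' i ≠ 0)
    (D E : Fin N → K × K) (S : Finset (ℤ × ℤ))
    (h : Sys S x' y' e ⊓ ⨅ i, ⨅ kl ∈ Λ i, Ker (x i) (y i) (qq (D i) (E i) kl.1 kl.2) = ⊥) :
    Emp (Sum.elim (fun p : Fin N × (Fin 2 × Fin 2) => w p.1 p.2) e) (↑S : Set (ℤ × ℤ)) := by
  classical
  have hcz : CharZero (LL K) := by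
    have h1 : Function.Injective ((io K).comp (PowerSeries.C (R := K))) :=
      ((io K).comp (PowerSeries.C (R := K))).injective
    exact charZero_of_injective_ringHom h1
  have hCne : ∀ z : K, z ≠ 0 → io K (PowerSeries.C z) ≠ 0 := by
    intro z hz h0
    apply hz
    have := ((io K).comp (PowerSeries.C (R := K))).injective (by
      rw [map_zero]; exact h0 : ((io K).comp (PowerSeries.C (R := K))) z =
        ((io K).comp (PowerSeries.C (R := K))) 0)
    exact this
  refine ⟨LL K, inferInstance, hcz,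
    Sum.elim (fun p => io K (PowerSeries.C (x p.1) *
      ee (((p.2.1 : ℕ) : K) * (D p.1).1 + ((p.2.2 : ℕ) : K) * (E p.1).1)))
      (fun j => io K (PowerSeries.C (x' j) * ee ((0 : K) * 1 + 0 * 0))),
    Sum.elim (fun p => io K (PowerSeries.C (y p.1) *
      ee (((p.2.1 : ℕ) : K) * (D p.1).2 + ((p.2.2 : ℕ) : K) * (E p.1).2)))
      (fun j => io K (PowerSeries.C (y' j) * ee ((0 : K) * 0 + 0 * 1))), ?_, ?_, ?_⟩
  · rintro (p | j)
    · simp only [Sum.elim_inl, map_mul]
      exact mul_ne_zero (hCne _ (hx _)) (io_ee_ne _)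
    · simp only [Sum.elim_inr, map_mul]
      exact mul_ne_zero (hCne _ (hx' _)) (io_ee_ne _)
  · rintro (p | j)
    · simp only [Sum.elim_inl, map_mul]
      exact mul_ne_zero (hCne _ (hy _)) (io_ee_ne _)
    · simp only [Sum.elim_inr, map_mul]
      exact mul_ne_zero (hCne _ (hy' _)) (io_ee_ne _)
  · intro f hfS hfL
    by_contra hf0
    have hfS' : f.support ⊆ S := by
      intro u hu
      exact mem_coe.1 (hfS (mem_coe.2 hu))
    obtain ⟨b, hb⟩ := IsLocalization.exist_integer_multiples (nonZeroDivisors (PowerSeries K)) S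
      (fun u => f u)
    have hb' : ∀ u ∈ S, ∃ g : PowerSeries K, io K g = io K (b : PowerSeries K) * f u := by
      intro u hu
      obtain ⟨g, hg⟩ := hb u hu
      refine ⟨g, ?_⟩
      have h1 : (b • f u : LL K) = io K (b : PowerSeries K) * f u := by
        rw [Submonoid.smul_def, Algebra.smul_def]
      rw [← h1]
      exact hg
    choose! G hG using hb'
    have hbne : io K (b : PowerSeries K) ≠ 0 := by
      intro h0
      have h1 : (b : PowerSeries K) = 0 := io_inj (by rw [h0, map_zero])
      exact nonZeroDivisors.coe_ne_zero b h1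
    obtain ⟨u0, hu0⟩ := Finsupp.support_nonempty_iff.2 hf0
    have hu0S := hfS' hu0
    have hG0 : G u0 ≠ 0 := by
      intro h0
      have h1 := hG u0 hu0S
      rw [h0, map_zero] at h1
      exact (mul_ne_zero hbne (Finsupp.mem_support_iff.1 hu0)) h1.symm
    obtain ⟨v, H, hH, u1, hu1, hne⟩ := norm_fam G ⟨u0, hu0S, hG0⟩
    have hXne : io K ((PowerSeries.X : PowerSeries K) ^ v) ≠ 0 := by
      intro h0
      have h1 : (PowerSeries.X : PowerSeries K) ^ v = 0 := io_inj (by rw [h0, map_zero])
      exact pow_ne_zero _ PowerSeries.X_ne_zero h1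
    obtain ⟨c, hc⟩ : ∃ c : LL K, c = io K (b : PowerSeries K) *
      (io K ((PowerSeries.X : PowerSeries K) ^ v))⁻¹ := ⟨_, rfl⟩
    have hFH : ∀ u ∈ S, (c • f) u = io K (H u) := by
      intro u hu
      rw [Finsupp.smul_apply, smul_eq_mul, hc]
      have h1 := hG u hu
      rw [hH u hu, map_mul] at h1
      rw [mul_right_comm, ← h1]
      field_simp
    have hFS : (c • f).support ⊆ S := (Finsupp.support_smul).trans hfS'
    have hFL : ∀ (X Y : LL K) (w : ℕ), LM f X Y w → LM (c • f) X Y w := by
      intro X Y w hL P hP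
      rw [pr_smul_left, hL P hP, mul_zero]
    -- the limit
    obtain ⟨g, hg⟩ : ∃ g : (ℤ × ℤ) →₀ K, g = Finsupp.onFinset S
        (fun u => if u ∈ S then PowerSeries.constantCoeff (H u) else 0) (by
          intro u hu
          by_contra hnot
          exact hu (if_neg hnot)) := ⟨_, rfl⟩
    have hgS : g.support ⊆ S := by rw [hg]; exact Finsupp.support_onFinset_subset
    have hgu : ∀ u ∈ S, g u = PowerSeries.constantCoeff (H u) := by
      intro u hu
      rw [hg, Finsupp.onFinset_apply, if_pos hu]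
    have hgne : g ≠ 0 := by
      intro h0
      apply hne
      rw [← hgu u1 hu1, h0, Finsupp.zero_apply]
    apply hgne
    have hmem : g ∈ Sys S x' y' e ⊓ ⨅ i, ⨅ kl ∈ Λ i, Ker (x i) (y i) (qq (D i) (E i) kl.1 kl.2) := by
      refine ⟨⟨?_, ?_⟩, ?_⟩
      · rw [SetLike.mem_coe, Finsupp.mem_supported]
        intro u hu
        exact mem_coe.2 (hgS (mem_coe.1 hu))
      · rw [SetLike.mem_coe, Submodule.mem_iInf]
        intro j
        rw [mem_Mul]
        apply LM_of_mono
        intro a b' hab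
        have h1 := sum_zero (D := ((1 : K), (0 : K))) (E := ((0 : K), (1 : K))) (hx' j) (hy' j) hFS hFH
          (hFL _ _ _ (hfL (Sum.inr j))) hab
        have h2 := congrArg PowerSeries.constantCoeff h1
        rw [map_zero, map_sum] at h2
        rw [pr_eq_sum hgS, ← h2]
        refine sum_congr rfl fun u hu => ?_
        rw [map_mul, map_mul, ee_const, PowerSeries.constantCoeff_C, hgu u hu]
        unfold lin
        simp only [one_mul, zero_mul, add_zero, zero_add, mul_one]
        ring
      · rw [SetLike.mem_coe, Submodule.mem_iInf]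
        intro i
        simp only [Submodule.mem_iInf]
        intro kl hkl
        rw [mem_Ker, pr_eq_sum hgS]
        have h1 := limit_cond' (S := S) (G := H) (z := fun u => x i ^ u.1 * y i ^ u.2)
          (f := fun u => lin (D i) ((u.1 : K), (u.2 : K))) (g := fun u => lin (E i) ((u.1 : K), (u.2 : K)))
          (w := w i) (fun a b' p q hpq => sum_zero (hx i) (hy i) hFS hFH
            (hFL _ _ _ (hfL (Sum.inl (i, (a, b'))))) hpq) (hΛ i kl hkl)
        rw [← h1]
        refine sum_congr rfl fun u hu => ?_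
        rw [hgu u hu]
        unfold qq
        ring
    rw [h] at hmem
    exact (Submodule.mem_bot K).1 hmem

end Pool.Agent.Y205.MD
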