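import Pool.Agent.H15.G.R_seed8.Y205.MD.Win

/-! Emptiness and independence for clusters and general blocks of spectators. -/

set_option autoImplicit false

namespace Pool.Agent.Y205.MD

open Finset Pool.Agent.TH176.Nag Pool.Agent.TH603.Sur Pool.Agent.TH745.MN

section
variable {r s : ℕ} {A : Fin r → ℕ} {κ : Type} [Fintype κ]

/-- the blocks of clusters and spectators -/
def pi3 (A : Fin r → ℕ) (π : κ → Fin s) : (Σ i, Fin (A i)) ⊕ κ → Fin (r + s) :=
  Sum.elim (fun x => Fin.castAdd s x.1) (fun y => Fin.natAdd r (π y))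

theorem pi3_l (π : κ → Fin s) (v : (Σ i, Fin (A i)) → ℕ) (e : κ → ℕ) (i : Fin r) :
    ∑ x, (if pi3 A π x = Fin.castAdd s i then Sum.elim v e x else 0) = ∑ j, v ⟨i, j⟩ := by
  rw [Fintype.sum_sum_type]
  have h1 : ∀ y : κ, (if pi3 A π (Sum.inr y) = Fin.castAdd s i then
      Sum.elim v e (Sum.inr y) else 0) = 0 := by
    intro y
    rw [if_neg]
    intro h
    have h2 : Fin.natAdd r (π y) = Fin.castAdd s i := h
    have := congrArg Fin.val h2
    rw [Fin.val_natAdd, Fin.val_castAdd] at this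
    have := i.2
    omega
  rw [sum_congr rfl fun y _ => h1 y, sum_const_zero, add_zero, Fintype.sum_sigma,
    Finset.sum_eq_single i]
  · refine sum_congr rfl fun j _ => ?_
    rw [if_pos (show pi3 A π (Sum.inl ⟨i, j⟩) = Fin.castAdd s i from rfl)]
    rfl
  · intro i' _ hi'
    refine sum_eq_zero fun j _ => ?_
    rw [if_neg]
    intro h
    exact hi' (Fin.castAdd_injective r s h)
  · intro h
    exact absurd (mem_univ _) h

theorem pi3_r (π : κ → Fin s) (v : (Σ i, Fin (A i)) → ℕ) (e : κ → ℕ) (g : Fin s) :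
    ∑ x, (if pi3 A π x = Fin.natAdd r g then Sum.elim v e x else 0) =
      ∑ y, if π y = g then e y else 0 := by
  rw [Fintype.sum_sum_type]
  have h1 : ∀ x : Σ i, Fin (A i), (if pi3 A π (Sum.inl x) = Fin.natAdd r g then
      Sum.elim v e (Sum.inl x) else 0) = 0 := by
    intro x
    rw [if_neg]
    intro h
    have h2 : Fin.castAdd s x.1 = Fin.natAdd r g := h
    have := congrArg Fin.val h2
    rw [Fin.val_natAdd, Fin.val_castAdd] at this
    have := x.1.2
    omega
  rw [sum_congr rfl fun x _ => h1 x, sum_const_zero, zero_add]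
  refine sum_congr rfl fun y _ => ?_
  by_cases h : π y = g
  · rw [if_pos h, if_pos (show pi3 A π (Sum.inr y) = Fin.natAdd r g by rw [← h]; rfl)]
    rfl
  · rw [if_neg h]
    exact if_neg fun h2 => h (Fin.natAdd_injective s r h2)

theorem sum_block_le (π : κ → Fin s) {c : Fin s → ℕ}
    (hc : ∀ g, c g = ∑ y, if π y = g then 1 else 0) {f : κ → ℕ} {B : ℕ} {g : Fin s}
    (h : ∀ y, π y = g → f y ≤ B) : ∑ y, (if π y = g then f y else 0) ≤ c g * B := by
  rw [hc, sum_mul]
  refine sum_le_sum fun y _ => ?_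
  split_ifs with h1
  · rw [one_mul]; exact h y h1
  · exact Nat.zero_le _

theorem le_sum_block (π : κ → Fin s) {c : Fin s → ℕ}
    (hc : ∀ g, c g = ∑ y, if π y = g then 1 else 0) {f : κ → ℕ} {B : ℕ} {g : Fin s}
    (h : ∀ y, π y = g → B ≤ f y) : c g * B ≤ ∑ y, (if π y = g then f y else 0) := by
  rw [hc, sum_mul]
  refine sum_le_sum fun y _ => ?_
  split_ifs with h1
  · rw [one_mul]; exact h y h1
  · exact (zero_mul B).le

/-- **Emptiness** for clusters and blocks of spectators. -/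
theorem Emp_gen {K d : ℕ} (hK : 1 ≤ K) (hr : r + s + 1 ≤ K ^ 2) (π : κ → Fin s)
    {c lo hi : Fin s → ℕ} (hc : ∀ g, c g = ∑ y, if π y = g then 1 else 0)
    {v : (Σ i, Fin (A i)) → ℕ} {e : κ → ℕ} (hlo : ∀ y, lo (π y) ≤ e y)
    (hhi : ∀ y, e y ≤ hi (π y)) (h1 : ∀ i, d < 2 * K * ∑ j, v ⟨i, j⟩)
    (h1' : ∀ g, d < 2 * K * (c g * lo g)) (h2 : ∀ i, 2 * K * ∑ j, v ⟨i, j⟩ ≤ A i * d)
    (h2' : ∀ g, 2 * K * hi g ≤ d)
    (h3 : (d : ℝ) ^ 2 < ∑ i, ((∑ j, v ⟨i, j⟩ : ℕ) : ℝ) ^ 2 / A i +
      ∑ g, (c g : ℝ) * (lo g : ℝ) ^ 2) :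
    Emp (Sum.elim v e) {m : ℤ × ℤ | 0 ≤ m.1 ∧ 0 ≤ m.2 ∧ m.1 + m.2 ≤ (d : ℤ)} := by
  have hK0 : (0 : ℝ) < K := by exact_mod_cast hK
  have hmin : ∀ (S N : ℕ), d < 2 * K * S → 2 * K * S ≤ N * d →
      0 < N ∧ min ((S : ℝ) ^ 2 / N) ((S : ℝ) * d / (2 * K)) = (S : ℝ) ^ 2 / N := by
    intro S N g1 g2
    have hN : 0 < N := by
      rcases Nat.eq_zero_or_pos N with h | h
      · subst h
        omega
      · exact h
    refine ⟨hN, ?_⟩
    apply min_eq_left
    have hN' : (0 : ℝ) < N := by exact_mod_cast hN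
    have g3 : 2 * (K : ℝ) * S ≤ N * d := by exact_mod_cast g2
    rw [div_le_div_iff₀ hN' (by positivity)]
    calc (S : ℝ) ^ 2 * (2 * K) = S * (2 * K * S) := by ring
      _ ≤ S * (N * d) := mul_le_mul_of_nonneg_left g3 (Nat.cast_nonneg _)
      _ = _ := by ring
  obtain ⟨Sg, hSg⟩ : ∃ Sg : Fin s → ℕ, ∀ g, Sg g = ∑ y, if π y = g then e y else 0 :=
    ⟨_, fun _ => rfl⟩
  have hSlo : ∀ g, c g * lo g ≤ Sg g := by
    intro g
    rw [hSg]
    exact le_sum_block π hc fun y hy => by rw [← hy]; exact hlo y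
  have hShi : ∀ g, Sg g ≤ c g * hi g := by
    intro g
    rw [hSg]
    exact sum_block_le π hc fun y hy => by rw [← hy]; exact hhi y
  have k1 : ∀ g, d < 2 * K * Sg g := fun g =>
    lt_of_lt_of_le (h1' g) (Nat.mul_le_mul_left _ (hSlo g))
  have k2 : ∀ g, 2 * K * Sg g ≤ c g * d := by
    intro g
    calc 2 * K * Sg g ≤ 2 * K * (c g * hi g) := Nat.mul_le_mul_left _ (hShi g)
      _ = c g * (2 * K * hi g) := by ring
      _ ≤ c g * d := Nat.mul_le_mul_left _ (h2' g)
  obtain ⟨S, hS⟩ : ∃ S : Fin (r + s) → ℕ, S = Fin.append (fun i => ∑ j, v ⟨i, j⟩) Sg :=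
    ⟨_, rfl⟩
  obtain ⟨N, hN⟩ : ∃ N : Fin (r + s) → ℕ, N = Fin.append A c := ⟨_, rfl⟩
  have s1 : ∀ i, S (Fin.castAdd s i) = ∑ j, v ⟨i, j⟩ := fun i => by rw [hS, Fin.append_left]
  have s2 : ∀ i, S (Fin.natAdd r i) = Sg i := fun i => by rw [hS, Fin.append_right]
  have n1 : ∀ i, N (Fin.castAdd s i) = A i := fun i => by rw [hN, Fin.append_left]
  have n2 : ∀ i, N (Fin.natAdd r i) = c i := fun i => by rw [hN, Fin.append_right]
  have one : (fun _ => 1 : (Σ i, Fin (A i)) ⊕ κ → ℕ) = Sum.elim (fun _ => 1) (fun _ => 1) := by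
    funext x
    rcases x with x | x <;> rfl
  refine Emp_fib hK hr (pi3 A π) (S := S) (N := N) ?_ ?_ ?_ ?_
  · intro i
    refine Fin.addCases (fun i => ?_) (fun i => ?_) i
    · rw [s1, pi3_l]
    · rw [s2, pi3_r, hSg]
  · intro i
    refine Fin.addCases (fun i => ?_) (fun i => ?_) i
    · have := pi3_l (A := A) π (fun _ => 1) (fun _ => 1) i
      rw [← one] at this
      rw [n1, this]
      simp
    · have := pi3_r (A := A) π (fun _ => 1) (fun _ => 1) i
      rw [← one] at this
      rw [n2, this, hc]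
  · intro i
    refine Fin.addCases (fun i => ?_) (fun i => ?_) i
    · rw [s1]; exact h1 i
    · rw [s2]; exact k1 i
  · rw [Fin.sum_univ_add]
    refine lt_of_lt_of_le h3 (add_le_add (le_of_eq ?_) ?_)
    · refine sum_congr rfl fun i _ => ?_
      rw [s1, n1, (hmin _ _ (h1 i) (h2 i)).2]
    · refine sum_le_sum fun i _ => ?_
      obtain ⟨g1, g2⟩ := hmin _ _ (k1 i) (k2 i)
      rw [s2, n2, g2]
      have g3 : (0 : ℝ) < c i := by exact_mod_cast g1
      rw [le_div_iff₀ g3]
      have g4 : ((c i : ℝ) * lo i) ≤ Sg i := by exact_mod_cast hSlo i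
      have g5 : ((c i : ℝ) * lo i) ^ 2 ≤ (Sg i : ℝ) ^ 2 := pow_le_pow_left₀ (by positivity) g4 2
      calc (c i : ℝ) * (lo i : ℝ) ^ 2 * c i = ((c i : ℝ) * lo i) ^ 2 := by ring
        _ ≤ _ := g5

/-- **Independence** for clusters, blocks of spectators, and further points in one block of
clusters. -/
theorem Sur_gen {ξ : Type} [Fintype ξ] {K d : ℕ} (hK : 2 ≤ K) (hr : r + s + 1 ≤ K ^ 2)
    (π : κ → Fin s) {c hi : Fin s → ℕ} (hc : ∀ g, c g = ∑ y, if π y = g then 1 else 0)
    {mA : Fin r → ℕ} {e : κ → ℕ} {x : ξ → ℕ} {i0 : Fin r} (hhi : ∀ y, e y ≤ hi (π y))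
    (hx : ∀ y, x y ≤ mA i0) (hA : ∀ i, 2 ≤ A i) (hc2 : ∀ g, 2 ≤ c g) {R : ℝ}
    (hR : R = (d : ℝ) + 3 - 1 / (2 * K)) {X : ℝ} (hX : X = ∑ y, (x y : ℝ))
    (h1 : ∀ i, 2 * (K : ℝ) * (mA i + 1) < R)
    (h1x : 2 * (K : ℝ) * (mA i0 + 1 + X / A i0) < R)
    (h1' : ∀ g, 2 * (K : ℝ) * (hi g + 1) < R)
    (h2 : ∀ i, R ≤ 2 * K * (A i * (mA i + 1))) (h2' : ∀ g, R ≤ 2 * K * (c g * (hi g + 1)))
    (h3 : ∑ i, (A i : ℝ) * (mA i + 1) ^ 2 + (2 * (mA i0 + 1) * X + X ^ 2 / A i0) +
      ∑ g, (c g : ℝ) * (hi g + 1) ^ 2 < R ^ 2) :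
    Sur (Sum.elim (fun p : Σ i, Fin (A i) => mA p.1) (Sum.elim e x))
      {m : ℤ × ℤ | 0 ≤ m.1 ∧ 0 ≤ m.2 ∧ m.1 + m.2 ≤ (d : ℤ)} := by
  classical
  have hK0 : (0 : ℝ) < K := by
    have : 0 < K := by omega
    exact_mod_cast this
  have hX0 : 0 ≤ X := by rw [hX]; exact sum_nonneg fun y _ => Nat.cast_nonneg _
  obtain ⟨n, hn⟩ : ∃ n : Fin (r + s) → ℝ, n = Fin.append (fun i => (A i : ℝ))
    (fun i => (c i : ℝ)) := ⟨_, rfl⟩
  obtain ⟨b, hb⟩ : ∃ b : Fin (r + s) → ℝ, b = Fin.append
    (fun i => (A i : ℝ) * (mA i + 1) + if i = i0 then X else 0)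
    (fun i => (c i : ℝ) * (hi i + 1)) := ⟨_, rfl⟩
  have n1 : ∀ i, n (Fin.castAdd s i) = A i := fun i => by rw [hn, Fin.append_left]
  have n2 : ∀ i, n (Fin.natAdd r i) = c i := fun i => by rw [hn, Fin.append_right]
  have b1 : ∀ i, b (Fin.castAdd s i) = A i * (mA i + 1) + if i = i0 then X else 0 := fun i => by
    rw [hb, Fin.append_left]
  have b2 : ∀ i, b (Fin.natAdd r i) = c i * (hi i + 1) := fun i => by rw [hb, Fin.append_right]
  have hA' : ∀ i, (2 : ℝ) ≤ A i := fun i => by exact_mod_cast hA i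
  have hc' : ∀ i, (2 : ℝ) ≤ c i := fun i => by exact_mod_cast hc2 i
  have hite : ∀ i, (0 : ℝ) ≤ if i = i0 then X else 0 := fun i => by
    split_ifs
    · exact hX0
    · exact le_rfl
  -- the map
  let π' : (Σ i, Fin (A i)) ⊕ (κ ⊕ ξ) → Fin (r + s) :=
    Sum.elim (fun p => Fin.castAdd s p.1)
      (Sum.elim (fun y => Fin.natAdd r (π y)) (fun _ => Fin.castAdd s i0))
  have hne : ∀ (i : Fin r) (g : Fin s), Fin.natAdd r g ≠ Fin.castAdd s i := by
    intro i g h2
    have := congrArg Fin.val h2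
    rw [Fin.val_natAdd, Fin.val_castAdd] at this
    have := i.2
    omega
  obtain ⟨w, hw⟩ : ∃ w : (Σ i, Fin (A i)) ⊕ (κ ⊕ ξ) → ℕ, w =
    Sum.elim (fun p : Σ i, Fin (A i) => mA p.1) (Sum.elim e x) := ⟨_, rfl⟩
  rw [← hw]
  have suml : ∀ (i : Fin r) (k : ℕ), ∑ p, (if π' p = Fin.castAdd s i then w p - k else 0) =
      A i * (mA i - k) + if i = i0 then ∑ y, (x y - k) else 0 := by
    intro i k
    rw [Fintype.sum_sum_type, Fintype.sum_sum_type]
    have g1 : ∑ y : κ, (if π' (Sum.inr (Sum.inl y)) = Fin.castAdd s i then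
        w (Sum.inr (Sum.inl y)) - k else 0) = 0 :=
      sum_eq_zero fun y _ => if_neg (hne i (π y))
    have g2 : ∑ y : ξ, (if π' (Sum.inr (Sum.inr y)) = Fin.castAdd s i then
        w (Sum.inr (Sum.inr y)) - k else 0) = if i = i0 then ∑ y, (x y - k) else 0 := by
      by_cases h : i = i0
      · rw [if_pos h]
        refine sum_congr rfl fun y _ => ?_
        have h5 : π' (Sum.inr (Sum.inr y)) = Fin.castAdd s i := by rw [h]; rfl
        rw [if_pos h5, hw]
        rfl
      · rw [if_neg h]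
        refine sum_eq_zero fun y _ => if_neg fun h2 => h ?_
        exact (Fin.castAdd_injective r s h2).symm
    have g3 : ∑ p : Σ i, Fin (A i), (if π' (Sum.inl p) = Fin.castAdd s i then
        w (Sum.inl p) - k else 0) = A i * (mA i - k) := by
      rw [Fintype.sum_sigma, Finset.sum_eq_single i]
      · have g4 : ∀ j : Fin (A i), (if π' (Sum.inl ⟨i, j⟩) = Fin.castAdd s i then
            w (Sum.inl ⟨i, j⟩) - k else 0) = mA i - k := by
          intro j
          have h5 : π' (Sum.inl ⟨i, j⟩) = Fin.castAdd s i := rfl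
          rw [if_pos h5, hw]
          rfl
        rw [sum_congr rfl fun j _ => g4 j, sum_const, card_univ, Fintype.card_fin, smul_eq_mul]
      · intro i' _ hi'
        exact sum_eq_zero fun j _ => if_neg fun h => hi' (Fin.castAdd_injective r s h)
      · intro h
        exact absurd (mem_univ _) h
    rw [g1, g2, g3, zero_add]
  have sumr : ∀ (g : Fin s) (k : ℕ), ∑ p, (if π' p = Fin.natAdd r g then w p - k else 0) =
      ∑ y, if π y = g then e y - k else 0 := by
    intro g k
    rw [Fintype.sum_sum_type, Fintype.sum_sum_type]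
    have g1 : ∑ p : Σ i, Fin (A i), (if π' (Sum.inl p) = Fin.natAdd r g then
        w (Sum.inl p) - k else 0) = 0 :=
      sum_eq_zero fun p _ => if_neg fun h => hne p.1 g h.symm
    have g2 : ∑ y : ξ, (if π' (Sum.inr (Sum.inr y)) = Fin.natAdd r g then
        w (Sum.inr (Sum.inr y)) - k else 0) = 0 :=
      sum_eq_zero fun y _ => if_neg fun h => hne i0 g h.symm
    rw [g1, g2, zero_add, add_zero]
    refine sum_congr rfl fun y _ => ?_
    by_cases h : π y = g
    · have h5 : π' (Sum.inr (Sum.inl y)) = Fin.natAdd r g := by rw [← h]; rfl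
      rw [if_pos h, if_pos h5, hw]
      rfl
    · rw [if_neg h]
      exact if_neg fun h2 => h (Fin.natAdd_injective s r h2)
  refine Sur_fib hK hr π' (n := n) (b := b) ?_ ?_ ?_ ?_ ?_
  · intro i
    refine Fin.addCases (fun i => ?_) (fun g => ?_) i
    · rintro k ⟨p, hp, hk⟩
      rw [suml, n1, b1]
      have hki : k < mA i := by
        rcases p with p | p | p
        · have : p.1 = i := Fin.castAdd_injective r s hp
          rw [← this]
          rw [hw] at hk
          exact hk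
        · exact absurd hp (hne i (π p))
        · have : i0 = i := Fin.castAdd_injective r s hp
          rw [← this]
          rw [hw] at hk
          exact lt_of_lt_of_le hk (hx p)
      have e1 : ((mA i - k : ℕ) : ℝ) = mA i - k := by rw [Nat.cast_sub hki.le]
      have e2 : ((if i = i0 then ∑ y, (x y - k) else 0 : ℕ) : ℝ) ≤ if i = i0 then X else 0 := by
        split_ifs
        · rw [hX]
          push_cast
          exact sum_le_sum fun y _ => by
            have : x y - k ≤ x y := Nat.sub_le _ _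
            exact_mod_cast this
        · simp
      push_cast at e2
      push_cast
      rw [e1]
      have e3 : (A i : ℝ) * (mA i - k) + A i * (k + 1) = A i * (mA i + 1) := by ring
      linarith
    · rintro k ⟨p, hp, hk⟩
      rw [sumr, n2, b2]
      have hki : k < hi g := by
        rcases p with p | p | p
        · exact absurd hp.symm (hne p.1 g)
        · have : π p = g := Fin.natAdd_injective s r hp
          rw [← this]
          rw [hw] at hk
          exact lt_of_lt_of_le hk (hhi p)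
        · exact absurd hp.symm (hne i0 g)
      have e1 : ((hi g - k : ℕ) : ℝ) = hi g - k := by rw [Nat.cast_sub hki.le]
      have e2 : ∑ y, (if π y = g then e y - k else 0) ≤ c g * (hi g - k) :=
        sum_block_le π hc fun y hy => by
          rw [← hy]
          exact Nat.sub_le_sub_right (hhi y) k
      have e4 : ((∑ y, (if π y = g then e y - k else 0) : ℕ) : ℝ) ≤
          ((c g * (hi g - k) : ℕ) : ℝ) := by exact_mod_cast e2
      rw [Nat.cast_mul, e1] at e4
      have e3 : (c g : ℝ) * (hi g - k) + c g * (k + 1) = c g * (hi g + 1) := by ring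
      linarith
  · intro i
    refine Fin.addCases (fun i => ?_) (fun i => ?_) i
    · rw [n1]; linarith [hA' i]
    · rw [n2]; linarith [hc' i]
  · intro i
    refine Fin.addCases (fun i => ?_) (fun i => ?_) i
    · rw [n1, b1]
      have := hA' i
      have h5 : (0 : ℝ) ≤ mA i := Nat.cast_nonneg _
      have := hite i
      nlinarith
    · rw [n2, b2]
      have := hc' i
      have h5 : (0 : ℝ) ≤ hi i := Nat.cast_nonneg _
      nlinarith
  · intro i
    rw [← hR]
    refine Fin.addCases (fun i => ?_) (fun i => ?_) i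
    · rw [n1, b1]
      have h5 : (0 : ℝ) < A i := by linarith [hA' i]
      by_cases hi : i = i0
      · subst hi
        rw [if_pos rfl]
        have := mul_lt_mul_of_pos_left h1x h5
        calc 2 * (K : ℝ) * (A i * (mA i + 1) + X) = A i * (2 * K * (mA i + 1 + X / A i)) := by
              field_simp
          _ < _ := this
      · rw [if_neg hi, add_zero]
        have := mul_lt_mul_of_pos_left (h1 i) h5
        calc 2 * (K : ℝ) * (A i * (mA i + 1)) = A i * (2 * K * (mA i + 1)) := by ring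
          _ < _ := this
    · rw [n2, b2]
      have h5 : (0 : ℝ) < c i := by linarith [hc' i]
      have := mul_lt_mul_of_pos_left (h1' i) h5
      calc 2 * (K : ℝ) * (c i * (hi i + 1)) = c i * (2 * K * (hi i + 1)) := by ring
        _ < _ := this
  · rw [← hR, Fin.sum_univ_add]
    refine lt_of_le_of_lt (le_of_eq ?_) h3
    have hmx : ∀ i, R / (2 * K) ≤ A i * (mA i + 1) + if i = i0 then X else 0 := by
      intro i
      rw [div_le_iff₀ (by positivity)]
      have g1 := h2 i
      have g2 := mul_nonneg (hite i) (show (0 : ℝ) ≤ 2 * K by positivity)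
      linarith
    congr 1
    · have e1 : ∀ i, max (R / (2 * K)) (b (Fin.castAdd s i)) ^ 2 / n (Fin.castAdd s i) =
          (A i : ℝ) * (mA i + 1) ^ 2 +
            if i = i0 then 2 * ((mA i0 : ℝ) + 1) * X + X ^ 2 / A i0 else 0 := by
        intro i
        rw [n1, b1, max_eq_right (hmx i)]
        have h5 : (A i : ℝ) ≠ 0 := by have := hA' i; positivity
        by_cases hi : i = i0
        · subst hi
          rw [if_pos rfl, if_pos rfl]
          field_simp
          ring
        · rw [if_neg hi, if_neg hi, add_zero, add_zero]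
          field_simp
      rw [sum_congr rfl fun i _ => e1 i, sum_add_distrib, sum_ite_eq' univ i0,
        if_pos (mem_univ _)]
    · refine sum_congr rfl fun i _ => ?_
      rw [n2, b2, max_le_sq]
      · have h5 : (c i : ℝ) ≠ 0 := by have := hc' i; positivity
        field_simp
      · rw [div_le_iff₀ (by positivity)]
        have := h2' i
        linarith

end

end Pool.Agent.Y205.MD
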