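import Pool.Agent.H15.G.R_seed8.TH470.MN.GdPow

/-! Expansions in powers of the equation, with a bound for the number of the powers. -/

set_option autoImplicit false

namespace Pool.Agent.Y205.MD

open Pool.Agent.TH745.MN Pool.Agent.TH603.EL Pool.Agent.TH603.EL.Scal2 Pool.Agent.TH793.NG
  Pool.Agent.TH176.Nag Pool.Agent.TH603.Sur

section
variable {F : Type} [Field F] {R : Polynomial (HK F)}

/-- expansions in powers of the equation with at most `L` powers; `M` is the weight of `y` -/
def GdL (R : Polynomial (HK F)) (M L : ℕ) (e : ℤ) (p : PXY F) : Prop :=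
  ∃ A B : PXY F, Wt M e A ∧ Wt M (e - M) B ∧ (∀ j, L ≤ j → A.coeff j = 0) ∧
    (∀ j, L ≤ j → B.coeff j = 0) ∧ p = A.comp (hR R) + B.comp (hR R) * Polynomial.X

theorem GdL_zero {M L : ℕ} {e : ℤ} : GdL R M L e (0 : PXY F) :=
  ⟨0, 0, Wt.zero, Wt.zero, by simp, by simp, by simp⟩

theorem GdL_add {M L : ℕ} {e : ℤ} {p q : PXY F} (hp : GdL R M L e p) (hq : GdL R M L e q) :
    GdL R M L e (p + q) := by
  obtain ⟨A, B, h1, h2, h3, h4, rfl⟩ := hp
  obtain ⟨A', B', h1', h2', h3', h4', rfl⟩ := hq
  refine ⟨A + A', B + B', h1.add h1', h2.add h2', ?_, ?_, ?_⟩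
  · intro j hj
    rw [Polynomial.coeff_add, h3 j hj, h3' j hj, add_zero]
  · intro j hj
    rw [Polynomial.coeff_add, h4 j hj, h4' j hj, add_zero]
  · rw [Polynomial.add_comp, Polynomial.add_comp]; ring

theorem GdL_sum {M L : ℕ} {e : ℤ} {κ : Type*} (t : Finset κ) (f : κ → PXY F)
    (h : ∀ k ∈ t, GdL R M L e (f k)) : GdL R M L e (∑ k ∈ t, f k) := by
  classical
  induction t using Finset.induction_on with
  | empty => simpa using GdL_zero
  | insert k t hk ih =>
    rw [Finset.sum_insert hk]
    exact GdL_add (h k (Finset.mem_insert_self _ _))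
      (ih fun j hj => h j (Finset.mem_insert_of_mem hj))

theorem GdL_mulh {M L : ℕ} {e : ℤ} {p : PXY F} (hp : GdL R M L (e - 2 * M) p) :
    GdL R M (L + 1) e (p * hR R) := by
  obtain ⟨A, B, h1, h2, h3, h4, rfl⟩ := hp
  refine ⟨A * Polynomial.X, B * Polynomial.X, h1.mulX, ?_, ?_, ?_, ?_⟩
  · apply Wt.mulX
    have : e - (M : ℤ) - 2 * M = e - 2 * M - M := by ring
    rw [this]; exact h2
  · intro j hj
    obtain ⟨j, rfl⟩ : ∃ j', j = j' + 1 := ⟨j - 1, by omega⟩
    rw [Polynomial.coeff_mul_X]
    exact h3 j (by omega)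
  · intro j hj
    obtain ⟨j, rfl⟩ : ∃ j', j = j' + 1 := ⟨j - 1, by omega⟩
    rw [Polynomial.coeff_mul_X]
    exact h4 j (by omega)
  · rw [Polynomial.mul_comp, Polynomial.mul_comp, Polynomial.X_comp]; ring

theorem GdL_mono_pow {M : ℕ} (hR' : R.natDegree ≤ 2 * M) (k : ℕ) :
    ∀ (L : ℕ) (_ : k < 2 * L) (e : ℤ) (p : Polynomial (HK F)),
      (p = 0 ∨ (p.natDegree : ℤ) + M * k ≤ e) →
      GdL R M L e (Polynomial.C p * Polynomial.X ^ k) := by
  induction k using Nat.strong_induction_on with
  | _ k ih =>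
    intro L hL e p hp
    rcases k with _ | k
    · refine ⟨Polynomial.C p, 0, Wt.C ?_, Wt.zero, ?_, by simp, ?_⟩
      · rcases hp with h | h
        · left; exact h
        · right; simpa using h
      · intro j hj
        rw [Polynomial.coeff_C, if_neg (by omega)]
      · simp
    · rcases k with _ | k
      · refine ⟨0, Polynomial.C p, Wt.zero, Wt.C ?_, by simp, ?_, ?_⟩
        · rcases hp with h | h
          · left; exact h
          · right
            push_cast at h
            linarith
        · intro j hj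
          rw [Polynomial.coeff_C, if_neg (by omega)]
        · simp
      · obtain ⟨L, rfl⟩ : ∃ L', L = L' + 1 := ⟨L - 1, by omega⟩
        have e1 : Polynomial.C p * Polynomial.X ^ (k + 1 + 1) =
            (Polynomial.C p * Polynomial.X ^ k) * hR R +
              Polynomial.C (p * R) * Polynomial.X ^ k := by
          unfold hR
          rw [Polynomial.C_mul]
          ring
        rw [e1]
        refine GdL_add (GdL_mulh (ih k (by omega) L (by omega) _ p ?_))
          (ih k (by omega) (L + 1) (by omega) _ _ ?_)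
        · rcases hp with h | h
          · left; exact h
          · right
            push_cast at h ⊢
            linarith
        · rcases hp with h | h
          · left; rw [h, zero_mul]
          · right
            have h2 : ((p * R).natDegree : ℤ) ≤ p.natDegree + 2 * M := by
              have := (Polynomial.natDegree_mul_le (p := p) (q := R)).trans
                (Nat.add_le_add_left hR' _)
              exact_mod_cast this
            push_cast at h ⊢
            linarith

theorem GdL_pf {M D L : ℕ} (hR : R.natDegree ≤ 2 * M) {f : (ℤ × ℤ) →₀ HK F}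
    (hf : ∀ m ∈ f.support, 0 ≤ m.1 ∧ 0 ≤ m.2 ∧ m.1 + M * m.2 ≤ D)
    (hL : ∀ m ∈ f.support, m.2 < 2 * L) : GdL R M L D (pf f) := by
  unfold pf
  apply GdL_sum
  intro m hm
  obtain ⟨h1, h2, h3⟩ := hf m hm
  have h8 := hL m hm
  apply GdL_mono_pow hR
  · omega
  right
  have h4 := Polynomial.natDegree_C_mul_X_pow_le (f m) m.1.toNat
  have h5 : (m.1.toNat : ℤ) = m.1 := Int.toNat_of_nonneg h1
  have h6 : (m.2.toNat : ℤ) = m.2 := Int.toNat_of_nonneg h2
  rw [h6]
  have h7 : ((Polynomial.C (f m) * Polynomial.X ^ m.1.toNat : Polynomial (HK F)).natDegree : ℤ) ≤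
      m.1 := by
    rw [← h5]; exact_mod_cast h4
  linarith

end

end Pool.Agent.Y205.MD
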