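import Pool.Agent.H15.G.R_seed8.TH552.BB.Tr

/-! Subspaces of `K ^ (t + 1)` and their images under the two shifts: the dimension inequality for
spaces of binary forms closed under derivatives. -/

set_option autoImplicit false

namespace Pool.Agent.Y205.MD

open Module

variable {K : Type} [Field K]

/-- dropping the first coordinate -/
def dF (K : Type) [Field K] (t : ℕ) : (Fin (t + 1) → K) →ₗ[K] (Fin t → K) :=
  LinearMap.funLeft K K Fin.succ

/-- dropping the last coordinate -/
def dL (K : Type) [Field K] (t : ℕ) : (Fin (t + 1) → K) →ₗ[K] (Fin t → K) :=
  LinearMap.funLeft K K Fin.castSucc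

theorem ker_dF {t : ℕ} {v : Fin (t + 1) → K} (hv : dF K t v = 0) :
    v = v 0 • Pi.single 0 1 := by
  funext i
  refine Fin.cases ?_ (fun i => ?_) i
  · simp
  · have h1 := congrFun hv i
    have h2 : v i.succ = 0 := h1
    rw [h2]
    simp

theorem shift_dim {t : ℕ} (F : Submodule K (Fin (t + 1) → K)) (G : Submodule K (Fin t → K))
    (h1 : F.map (dF K t) ≤ G) (h0 : F.map (dL K t) ≤ G) :
    finrank K F * t ≤ (t + 1) * finrank K G := by
  have hsp := Pool.Agent.TH552.BB.finrank_split (dF K t) F
  have hmap := Submodule.finrank_mono h1
  by_cases he : (Pi.single 0 1 : Fin (t + 1) → K) ∈ F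
  · -- the kernel has dimension at most one
    have hk : finrank K ↥(F ⊓ LinearMap.ker (dF K t)) ≤ 1 := by
      have h2 : F ⊓ LinearMap.ker (dF K t) ≤
          Submodule.span K {(Pi.single 0 1 : Fin (t + 1) → K)} := by
        rintro v ⟨-, hv⟩
        rw [SetLike.mem_coe, LinearMap.mem_ker] at hv
        rw [ker_dF hv]
        exact Submodule.smul_mem _ _ (Submodule.mem_span_singleton_self _)
      refine (Submodule.finrank_mono h2).trans ?_
      rw [finrank_span_singleton (by simp)]
    by_cases heq : F.map (dF K t) = G
    · -- `F` is everything
      have hall : ∀ a : ℕ, ∀ ha : a < t + 1, (Pi.single ⟨a, ha⟩ 1 : Fin (t + 1) → K) ∈ F := by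
        intro a
        induction a with
        | zero => intro _; exact he
        | succ a ih =>
          intro ha
          have h3 := ih (by omega)
          have h4 : dL K t (Pi.single ⟨a, by omega⟩ 1) ∈ G := h0 ⟨_, h3, rfl⟩
          rw [← heq] at h4
          obtain ⟨v, hv, hv'⟩ := h4
          have h5 : v = v 0 • Pi.single 0 1 + Pi.single ⟨a + 1, ha⟩ 1 := by
            funext i
            refine Fin.cases ?_ (fun i => ?_) i
            · have : (0 : Fin (t + 1)) ≠ ⟨a + 1, ha⟩ := by
                intro h
                have := congrArg Fin.val h
                simp at this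
              simp [Pi.single_eq_of_ne this]
            · have h6 : v i.succ = (Pi.single (⟨a, by omega⟩ : Fin (t + 1)) (1 : K) :
                  Fin (t + 1) → K) i.castSucc := congrFun hv' i
              rw [h6, Pi.add_apply, Pi.smul_apply, Pi.single_eq_of_ne (Fin.succ_ne_zero i),
                smul_zero, zero_add]
              by_cases hi : (i : ℕ) = a
              · have e1 : i.castSucc = (⟨a, by omega⟩ : Fin (t + 1)) := Fin.ext hi
                have e2 : i.succ = (⟨a + 1, ha⟩ : Fin (t + 1)) := Fin.ext (by simp [hi])
                rw [e1, e2, Pi.single_eq_same, Pi.single_eq_same]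
              · rw [Pi.single_eq_of_ne, Pi.single_eq_of_ne]
                · intro h
                  apply hi
                  have := congrArg Fin.val h
                  simpa using this
                · intro h
                  apply hi
                  have := congrArg Fin.val h
                  simpa using this
          have h6 : (Pi.single ⟨a + 1, ha⟩ 1 : Fin (t + 1) → K) = v - v 0 • Pi.single 0 1 := by
            exact eq_sub_of_add_eq' h5.symm
          rw [h6]
          exact F.sub_mem hv (F.smul_mem _ he)
      have htop : F = ⊤ := by
        rw [eq_top_iff]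
        intro v _
        have h7 : v = ∑ i : Fin (t + 1), v i • Pi.single i 1 := by
          funext j
          rw [Finset.sum_apply, Finset.sum_eq_single j]
          · simp
          · intro b _ hb
            simp [Pi.single_eq_of_ne (Ne.symm hb)]
          · intro h
            exact absurd (Finset.mem_univ _) h
        rw [h7]
        exact F.sum_mem fun i _ => F.smul_mem _ (hall i i.2)
      have hF : finrank K F = t + 1 := by rw [htop]; simp
      rw [hF] at hsp
      rw [hF]
      have : t ≤ finrank K G := by omega
      exact Nat.mul_le_mul_left _ this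
    · have hlt : finrank K ↥(F.map (dF K t)) < finrank K G :=
        Submodule.finrank_lt_finrank_of_lt (lt_of_le_of_ne h1 heq)
      have : finrank K F ≤ finrank K G := by omega
      calc finrank K F * t ≤ finrank K G * (t + 1) := Nat.mul_le_mul this (by omega)
        _ = (t + 1) * finrank K G := mul_comm _ _
  · have hk : F ⊓ LinearMap.ker (dF K t) = ⊥ := by
      rw [eq_bot_iff]
      rintro v ⟨hv1, hv⟩
      rw [SetLike.mem_coe, LinearMap.mem_ker] at hv
      rw [SetLike.mem_coe] at hv1
      have h2 := ker_dF hv
      by_cases h3 : v 0 = 0
      · rw [h3, zero_smul] at h2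
        rw [Submodule.mem_bot]
        exact h2
      · exfalso
        apply he
        have h4 : (Pi.single 0 1 : Fin (t + 1) → K) = (v 0)⁻¹ • v := by
          rw [h2, smul_smul]
          simp only [Pi.smul_apply, Pi.single_eq_same, smul_eq_mul, mul_one]
          rw [inv_mul_cancel₀ h3, one_smul]
        rw [h4]
        exact F.smul_mem _ hv1
    rw [hk, finrank_bot, add_zero] at hsp
    have : finrank K F ≤ finrank K G := by omega
    calc finrank K F * t ≤ finrank K G * (t + 1) := Nat.mul_le_mul this (by omega)
      _ = (t + 1) * finrank K G := mul_comm _ _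

end Pool.Agent.Y205.MD
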