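import Pool.Agent.H15.G.R_seed8.Y205.MD.LeadL
import Pool.Agent.H15.G.R_seed8.TH745.MN.Key

/-! The key lemma in the first rows: emptiness at several nodes. -/

set_option autoImplicit false

namespace Pool.Agent.Y205.MD

open Pool.Agent.TH745.MN Pool.Agent.TH603.EL Pool.Agent.TH603.EL.Scal2 Pool.Agent.TH793.NG
  Pool.Agent.TH176.Nag Pool.Agent.TH603.Sur Pool.Agent.TH113.MN

/-- **The key lemma**, in the first rows. -/
theorem Emp_keyL {r M D L : ℕ} (hM : r + 1 ≤ M) {κ : Fin r → Type} [∀ i, Finite (κ i)]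
    {v : (Σ i, κ i) → ℕ} {a b : Fin r → ℝ} (ha : ∀ i, 0 < a i) (hb : ∀ i, 0 < b i) {ω : ℕ → ℝ}
    (hω : Thr a b ω) (h : ∀ i, Emp (fun j => v ⟨i, j⟩) (SSL M D L (a i) (b i) ω)) :
    Emp v (WML M D L) := by
  classical
  obtain ⟨x, y, hx, hy, hE⟩ := Pool.Agent.TH509.MN.common_points
    (fun i => (SS_finite (D := D) (by omega) (ha i) (hb i) ω).subset (fun m hm => hm.1)) h
  obtain ⟨ell, hell⟩ : ∃ ell : Fin r → ℝ, ∀ i, a i + b i = ell i := ⟨_, fun i => rfl⟩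
  have hell0 : ∀ i, 0 < ell i := fun i => by
    rw [← hell i]
    exact add_pos (ha i) (hb i)
  obtain ⟨k, hk⟩ : ∃ k : ℝ, k = 2 * ∑ i, ell i + ∑ W ∈ Finset.range (D + 1), ω W + 1 := ⟨_, rfl⟩
  have hω0 : ∀ W, 0 < ω W := fun W => (hω W).1
  have hωs : ∀ W ≤ D, ω W ≤ ∑ W ∈ Finset.range (D + 1), ω W := fun W hW =>
    Finset.single_le_sum (fun i _ => (hω0 i).le) (Finset.mem_range.2 (by omega))
  have hωs0 : 0 < ∑ W ∈ Finset.range (D + 1), ω W := (hω0 0).trans_le (hωs 0 (by omega))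
  have hells : ∀ i, ell i ≤ ∑ i, ell i := fun i =>
    Finset.single_le_sum (fun j _ => (hell0 j).le) (Finset.mem_univ i)
  have hk2 : ∀ i, 2 * ell i < k := fun i => by
    have := hells i
    rw [hk]
    linarith
  have hs : ∀ i, ∀ W ≤ D, ω W ≤ k - ell i := fun i W hW => by
    have h1 := hells i
    have h2 := hωs W hW
    have h3 := hell0 i
    rw [hk]
    linarith
  choose xx yy U hT using fun i =>
    Pool.Agent.TH695.MN.exists_tube (F := ℚ) hell0 (κ := k) i (ha i) (hb i) (hell i) (hk2 i)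
  have hchar : CharZero (HK ℚ) :=
    charZero_of_injective_ringHom (f := (HahnSeries.C : ℚ →+* HK ℚ)) HahnSeries.C_injective
  have hU : ∀ (q : Σ i, κ i) (l : ZMod 3),
      evp (hx q.1 q.2) (hy q.1 q.2) (UU (xx q.1) (yy q.1) l) ≠ 0 := by
    intro q l
    unfold UU
    split_ifs
    · rw [map_one]; exact one_ne_zero
    · exact (hT q.1).nx _ _ _ _
    · exact (hT q.1).ny _ _ _ _
  refine ⟨HK ℚ, inferInstance, hchar,
    fun q => evp (hx q.1 q.2) (hy q.1 q.2) (UU (xx q.1) (yy q.1) 1) /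
      evp (hx q.1 q.2) (hy q.1 q.2) (UU (xx q.1) (yy q.1) 0),
    fun q => evp (hx q.1 q.2) (hy q.1 q.2) (UU (xx q.1) (yy q.1) 2) /
      evp (hx q.1 q.2) (hy q.1 q.2) (UU (xx q.1) (yy q.1) 0),
    fun q => div_ne_zero (hU q 1) (hU q 0), fun q => div_ne_zero (hU q 2) (hU q 0), ?_⟩
  intro f hf hLM
  by_contra hne0
  have hf0 : ∀ m ∈ f.support, 0 ≤ m.1 ∧ 0 ≤ m.2 ∧ m.1 + M * m.2 ≤ (D : ℤ) := fun m hm => (hf hm).1
  have hf1 : ∀ m ∈ f.support, 0 ≤ m.1 ∧ 0 ≤ m.2 ∧ m.1 + m.2 ≤ (D : ℤ) := by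
    intro m hm
    obtain ⟨h1, h2, h3⟩ := hf0 m hm
    refine ⟨h1, h2, ?_⟩
    have h4 : (1 : ℤ) ≤ M := by exact_mod_cast (by omega : 1 ≤ M)
    nlinarith
  have hodd : Odd (Rb ℚ r).natDegree := by
    rw [natDegree_Rb]
    exact ⟨r, rfl⟩
  obtain ⟨n, ⟨i0, k0, j0, ha0⟩, hb0⟩ := nod_leadL (L := L) hodd (M := M) (by rw [natDegree_Rb]; omega)
    cc_injective hT hω hs (pf_ne (fun m hm => ⟨(hf0 m hm).1, (hf0 m hm).2.1⟩) hne0)
    (GdL_pf ((natDegree_RR_le ell).trans (by omega)) hf0 (fun m hm => (hf hm).2))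
  rw [← ev_hom _ _ D f] at ha0
  have h2 : ((ev (UU (xx i0) (yy i0)) (hom D f)).coeff n).coeff = 0 := by
    apply hE i0
    · intro m hm
      have hm' : cf (EV (xx i0) (yy i0) (pf f)) n m.1 m.2 ≠ 0 := by
        rw [← ev_hom _ _ D f]
        exact Finsupp.mem_support_iff.1 hm
      exact hb0 i0 m.1 m.2 hm'
    · intro j
      exact LM_transfer (hx i0 j) (hy i0 j) (hU ⟨i0, j⟩) hf1 (hLM ⟨i0, j⟩) n
  apply ha0
  unfold cf
  rw [h2]
  rfl

end Pool.Agent.Y205.MD
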