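import Pool.Agent.H15.G.R_seed8.Y205.MD.Blk
import Pool.Agent.H15.G.R_seed8.Y205.MD.Cls

/-! **The critical degrees of all vectors of nearly equal, large multiplicities.** -/

set_option autoImplicit false

namespace Pool.Agent.Y205.MD

open Finset Pool.Agent.TH176.Nag Pool.Agent.TH603.Sur H932R3

theorem sum_fibR {κ : Type} [Fintype κ] {s : ℕ} (π : κ → Fin s) (f : Fin s → ℝ) :
    ∑ g, ((∑ y, if π y = g then 1 else 0 : ℕ) : ℝ) * f g = ∑ y, f (π y) := by
  have h1 : ∀ g, ((∑ y, if π y = g then 1 else 0 : ℕ) : ℝ) * f g =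
      ∑ y, if π y = g then f g else 0 := by
    intro g
    push_cast
    rw [sum_mul]
    refine sum_congr rfl fun y _ => ?_
    split_ifs <;> simp
  rw [sum_congr rfl fun g _ => h1 g, sum_comm]
  refine sum_congr rfl fun y _ => ?_
  simp

theorem crit_near {n : ℕ} {w : Fin n → ℕ} {m s : ℕ} (hw1 : ∀ p, m ≤ w p) (hw2 : ∀ p, w p ≤ m + s)
    (h1 : 1000 * ((s : ℝ) + 1) ≤ √(n : ℝ)) (h2 : 1000000 * ((s : ℝ) + 1) ^ 3 ≤ m * √(n : ℝ))
    (h3 : 2 / 5 * √(n : ℝ) ≤ m) {d : ℕ}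
    (hT1 : d * (d + 1) < 2 * ∑ p, (w p + 1).choose 2)
    (hT2 : 2 * ∑ p, (w p + 1).choose 2 ≤ (d + 2) * (d + 3)) :
    ((d + 2).choose 2 ≤ ∑ p, (w p + 1).choose 2 → Emp w (TZ d)) ∧
      (∑ p, (w p + 1).choose 2 ≤ (d + 2).choose 2 → Sur w (TZ d)) := by
  classical
  obtain ⟨q, hq⟩ : ∃ q : ℝ, q = √(n : ℝ) := ⟨_, rfl⟩
  rw [← hq] at h1 h2 h3
  have hqq : q ^ 2 = n := by rw [hq]; exact Real.sq_sqrt (Nat.cast_nonneg _)
  have hs0 : (0 : ℝ) ≤ s := Nat.cast_nonneg _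
  have hq1 : 1000 ≤ q := by linarith
  have hm400 : (400 : ℝ) ≤ m := by linarith
  have hms : (m : ℝ) + s + 1 ≤ 401 / 400 * m := by linarith
  -- the number of conditions
  obtain ⟨U, hU⟩ : ∃ U : ℝ, U = ((2 * ∑ p, (w p + 1).choose 2 : ℕ) : ℝ) := ⟨_, rfl⟩
  have hU' : U = ∑ p, (w p : ℝ) * (w p + 1) := by
    rw [hU]
    push_cast
    rw [mul_sum]
    refine sum_congr rfl fun p _ => ?_
    rw [choose_real]
    ring
  have hw1r : ∀ p, (m : ℝ) ≤ w p := fun p => by exact_mod_cast hw1 p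
  have hw2r : ∀ p, (w p : ℝ) ≤ m + s := fun p => by exact_mod_cast hw2 p
  have hUlow : (q * m) ^ 2 ≤ U := by
    have e1 : (q * m) ^ 2 = ∑ _p : Fin n, (m : ℝ) ^ 2 := by
      rw [sum_const, card_univ, Fintype.card_fin, nsmul_eq_mul, ← hqq]
      ring
    rw [e1, hU']
    refine sum_le_sum fun p _ => ?_
    have g1 := mul_self_le_mul_self (Nat.cast_nonneg (α := ℝ) m) (hw1r p)
    have g2 : (0 : ℝ) ≤ w p := Nat.cast_nonneg _
    linarith
  have hUup : U ≤ (q * (m + s + 1)) ^ 2 := by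
    have e1 : (q * (m + s + 1)) ^ 2 = ∑ _p : Fin n, ((m : ℝ) + s + 1) ^ 2 := by
      rw [sum_const, card_univ, Fintype.card_fin, nsmul_eq_mul, ← hqq]
      ring
    rw [e1, hU']
    refine sum_le_sum fun p _ => ?_
    have g1 := hw2r p
    have g2 : (0 : ℝ) ≤ w p := Nat.cast_nonneg _
    have g3 : (w p : ℝ) * (w p + 1) ≤ (m + s + 1) * (m + s + 1) :=
      mul_le_mul (by linarith) (by linarith) (by linarith) (by linarith)
    linarith
  have hd0 : (0 : ℝ) ≤ d := Nat.cast_nonneg _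
  have hUd1 : (d : ℝ) ^ 2 + d < U := by
    rw [hU]
    have : ((d * (d + 1) : ℕ) : ℝ) < ((2 * ∑ p, (w p + 1).choose 2 : ℕ) : ℝ) := by
      exact_mod_cast hT1
    push_cast at this ⊢
    linarith
  have hUd2 : U ≤ ((d : ℝ) + 2) * (d + 3) := by
    rw [hU]
    exact_mod_cast hT2
  have hd1 : q * m ≤ d + 3 := by
    have g1 : (q * m) ^ 2 ≤ ((d : ℝ) + 3) ^ 2 := by linarith
    exact le_of_sq_le_sq g1 (by linarith)
  have hd2 : (d : ℝ) ≤ 401 / 400 * (q * m) := by
    have g1 : (d : ℝ) ^ 2 ≤ (q * (m + s + 1)) ^ 2 := by linarith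
    have g2 := le_of_sq_le_sq g1 (by positivity)
    have g3 : q * (m + s + 1) ≤ q * (401 / 400 * m) := mul_le_mul_of_nonneg_left hms (by linarith)
    linarith
  obtain ⟨K, B, a, x0, hx0, hK59, hKX, hKB, hB2, hBa, hax, hcnt, hσB, hKK, hxP⟩ :=
    near_num hs0 h1 h2 h3 hd1 hd2
  have hnq : (2 * (13 / 100 * q) : ℝ) < n := by
    rw [← hqq]
    have g1 := mul_le_mul_of_nonneg_right hq1 (show (0 : ℝ) ≤ q by linarith)
    linarith
  -- the frequent values
  obtain ⟨S, hS⟩ : ∃ S : Finset (Fin n), S = univ.filter fun p =>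
    4 * a + B ≤ (univ.filter fun x => w x = w p).card := ⟨_, rfl⟩
  have hmemS : ∀ p, p ∈ S ↔ 4 * a + B ≤ (univ.filter fun x => w x = w p).card := fun p => by
    rw [hS]; simp
  have hIcc : (Icc m (m + s)).card = s + 1 := by
    rw [Nat.card_Icc]
    omega
  have hrare : (Sᶜ).card ≤ (4 * a + B) * (s + 1) := by
    rw [← hIcc]
    refine card_le_mul_card_image_of_maps_to (f := w) (fun p _ => mem_Icc.2 ⟨hw1 p, hw2 p⟩) _ ?_
    intro b _
    rcases (Sᶜ.filter fun p => w p = b).eq_empty_or_nonempty with h | ⟨p0, hp0⟩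
    · rw [h]; simp
    · rw [mem_filter, mem_compl, hmemS] at hp0
      obtain ⟨g1, g2⟩ := hp0
      rw [g2] at g1
      have g3 : (Sᶜ.filter fun p => w p = b).card ≤ (univ.filter fun x => w x = b).card :=
        card_le_card (filter_subset_filter _ (subset_univ _))
      omega
  obtain ⟨r, mm, hrd, hinj, hm1, hm2⟩ := exists_classes' w S
  have hrs : r ≤ s + 1 := by
    rw [hrd, ← hIcc]
    refine card_le_card fun v hv => ?_
    obtain ⟨p, -, rfl⟩ := mem_image.1 hv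
    exact mem_Icc.2 ⟨hw1 p, hw2 p⟩
  have hmm1 : ∀ i, m ≤ mm i := by
    intro i
    obtain ⟨j, -, hj⟩ := hm1 i
    rw [← hj]
    exact hw1 j
  have hmm2 : ∀ i, mm i ≤ m + s := by
    intro i
    obtain ⟨j, -, hj⟩ := hm1 i
    rw [← hj]
    exact hw2 j
  obtain ⟨N, hN⟩ : ∃ N : Fin r → ℕ, ∀ i, N i = (S.filter fun q => w q = mm i).card :=
    ⟨_, fun _ => rfl⟩
  have hNa : ∀ i, 4 * a + B ≤ N i := by
    intro i
    obtain ⟨j, hjS, hj⟩ := hm1 i
    have h0 := (hmemS j).1 hjS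
    refine h0.trans ?_
    rw [hN]
    refine card_le_card fun x hx => ?_
    rw [mem_filter] at hx ⊢
    refine ⟨?_, by rw [hx.2, hj]⟩
    rw [hmemS, hx.2]
    exact h0
  obtain ⟨c, hc⟩ : ∃ c : Fin r → ℕ, ∀ i, c i = B + (N i - B) % 4 := ⟨_, fun _ => rfl⟩
  obtain ⟨A, hA⟩ : ∃ A : Fin r → ℕ, ∀ i, A i = (N i - B) / 4 := ⟨_, fun _ => rfl⟩
  have hAc : ∀ i, 4 * A i + c i = N i := by
    intro i
    have := hNa i
    rw [hA, hc]
    omega
  have haA : ∀ i, a ≤ A i := by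
    intro i
    have := hNa i
    rw [hA]
    omega
  have hcB : ∀ i, B ≤ c i := by
    intro i
    rw [hc]
    omega
  have hcB3 : ∀ i, c i ≤ B + 3 := by
    intro i
    rw [hc]
    omega
  -- the spectators
  obtain ⟨C, hC⟩ : ∃ C, C = Fintype.card ((Σ i, Fin (c i)) ⊕ {p // p ∈ Sᶜ}) := ⟨_, rfl⟩
  obtain ⟨τ⟩ : Nonempty (Fin C ≃ ((Σ i, Fin (c i)) ⊕ {p // p ∈ Sᶜ})) :=
    ⟨(Fintype.equivFinOfCardEq hC.symm).symm⟩
  obtain ⟨e0, he0⟩ : ∃ e0 : ((Σ i, Fin (c i)) ⊕ {p // p ∈ Sᶜ}) → ℕ,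
    e0 = Sum.elim (fun z : Σ i, Fin (c i) => mm z.1) (fun p : {p // p ∈ Sᶜ} => w p) := ⟨_, rfl⟩
  obtain ⟨e1, he1⟩ : ∃ e1 : Fin C → ℕ, e1 = fun j => e0 (τ j) := ⟨_, rfl⟩
  obtain ⟨e, he⟩ : ∃ e : Fin C → ℕ, e = e1 ∘ Tuple.sort e1 := ⟨_, rfl⟩
  have hmono : Monotone e := by rw [he]; exact Tuple.monotone_sort e1
  have hesum : ∀ t : ℕ → ℕ, ∑ j, t (e j) = ∑ i, c i * t (mm i) + ∑ p ∈ Sᶜ, t (w p) := by
    intro t
    have g1 : ∑ j, t (e j) = ∑ j, t (e1 j) := by
      rw [he]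
      exact Equiv.sum_comp (Tuple.sort e1) fun j => t (e1 j)
    have g2 : ∑ j, t (e1 j) = ∑ z, t (e0 z) := by
      rw [he1]
      exact Equiv.sum_comp τ fun z => t (e0 z)
    rw [g1, g2, he0, Fintype.sum_sum_type, Fintype.sum_sigma]
    simp only [Sum.elim_inl, Sum.elim_inr]
    congr 1
    · refine sum_congr rfl fun i _ => ?_
      simp
    · exact sum_coe_sort Sᶜ fun p => t (w p)
  have hCeq : C = ∑ i, c i + (Sᶜ).card := by
    have := hesum fun _ => 1
    simpa using this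
  have hCle : C ≤ (s + 1) * (4 * a + 2 * B + 3) := by
    have g1 : ∑ i, c i ≤ r * (B + 3) := by
      calc ∑ i, c i ≤ ∑ _i : Fin r, (B + 3) := sum_le_sum fun i _ => hcB3 i
        _ = r * (B + 3) := by simp
    have g2 : r * (B + 3) ≤ (s + 1) * (B + 3) := Nat.mul_le_mul_right _ hrs
    have e1 : (s + 1) * (4 * a + 2 * B + 3) = (s + 1) * (B + 3) + (4 * a + B) * (s + 1) := by ring
    omega
  have hCr : (C : ℝ) ≤ 13 / 100 * q := by
    refine le_trans ?_ hcnt
    have : ((C : ℕ) : ℝ) ≤ (((s + 1) * (4 * a + 2 * B + 3) : ℕ) : ℝ) := by exact_mod_cast hCle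
    push_cast at this
    exact this
  have hr0 : 0 < r := by
    by_contra hcon
    have hr0 : r = 0 := by omega
    have hSe : S = ∅ := by
      rw [hr0] at hrd
      exact image_eq_empty.1 (card_eq_zero.1 hrd.symm)
    have g1 : (Sᶜ).card = n := by
      rw [hSe, compl_empty, card_univ, Fintype.card_fin]
    have g2 : n ≤ C := by omega
    have g3 : (n : ℝ) ≤ C := by exact_mod_cast g2
    linarith
  have hBC : B ≤ C := by
    have g1 : c ⟨0, hr0⟩ ≤ ∑ i, c i := single_le_sum (f := c) (fun _ _ => Nat.zero_le _) (mem_univ _)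
    have g2 := hcB ⟨0, hr0⟩
    omega
  have heb : ∀ j, m ≤ e j ∧ e j ≤ m + s := by
    intro j
    have g1 : ∀ z, m ≤ e0 z ∧ e0 z ≤ m + s := by
      rw [he0]
      rintro (z | p)
      · exact ⟨hmm1 z.1, hmm2 z.1⟩
      · exact ⟨hw1 p, hw2 p⟩
    rw [he, he1]
    exact g1 _
  obtain ⟨G, π, lo, hi, hGC, hcg1, hcg2, hlo, hhi, hlom, hhim, hlohi, htel⟩ :=
    exists_blocks (by omega) hBC hmono (fun j => (heb j).1) (fun j => (heb j).2)
  -- all the sums
  have hsum : ∀ t : ℕ → ℕ, ∑ p, t (w p) = ∑ i, 4 * A i * t (mm i) + ∑ j, t (e j) := by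
    intro t
    rw [hesum, ← add_assoc, ← sum_add_distrib]
    have e1 := sum_classes hinj hm2 t
    have e2 : ∑ p, t (w p) = ∑ p ∈ S, t (w p) + ∑ p ∈ Sᶜ, t (w p) :=
      (sum_add_sum_compl S fun p => t (w p)).symm
    rw [e2, e1]
    congr 1
    refine sum_congr rfl fun i _ => ?_
    rw [← hN, ← hAc]
    ring
  obtain ⟨σ, hσ⟩ := exists_equiv_of_sum
    (f := (Sum.elim (fun p : (Σ i, Fin (A i)) × (Fin 2 × Fin 2) => mm p.1.1)
      (Sum.elim e (fun _ : Fin 0 => 0)) :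
      ((Σ i, Fin (A i)) × (Fin 2 × Fin 2)) ⊕ (Fin C ⊕ Fin 0) → ℕ))
    (g := w) (by
      intro t
      rw [hsum, Fintype.sum_sum_type, Fintype.sum_sum_type]
      simp only [Sum.elim_inl, Sum.elim_inr, univ_eq_empty, sum_empty, add_zero]
      congr 1
      rw [Fintype.sum_prod_type, Fintype.sum_sigma]
      refine sum_congr rfl fun i _ => ?_
      simp only [sum_const, card_univ, Fintype.card_fin, Fintype.card_prod, smul_eq_mul]
      ring)
  have hsumR : ∀ t : ℕ → ℕ, ∑ p, (t (w p) : ℝ) = ∑ i, 4 * (A i : ℝ) * t (mm i) +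
      ∑ j, (t (e j) : ℝ) := by
    intro t
    exact_mod_cast hsum t
  have hUe : U = ∑ i, 4 * (A i : ℝ) * (mm i * (mm i + 1)) + ∑ j, (e j : ℝ) * (e j + 1) := by
    have g := hsumR fun y => y * (y + 1)
    push_cast at g
    rw [hU', ← g]
  have hne : (n : ℝ) = ∑ i, 4 * (A i : ℝ) + C := by
    have g := hsumR fun _ => 1
    simpa using g
  obtain ⟨α, hα⟩ : ∃ α : ℝ, α = ∑ i, (A i : ℝ) := ⟨_, rfl⟩
  have hC0 : (0 : ℝ) ≤ C := Nat.cast_nonneg _
  have hα4 : 4 * α ≤ q ^ 2 := by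
    rw [hqq, hne, ← mul_sum, ← hα]
    linarith
  have hAα : ∀ i, (A i : ℝ) ≤ α := fun i => by
    rw [hα]
    exact single_le_sum (f := fun i => (A i : ℝ)) (fun _ _ => Nat.cast_nonneg _) (mem_univ i)
  have hmm1r : ∀ i, (m : ℝ) ≤ mm i := fun i => by exact_mod_cast hmm1 i
  have hmm2r : ∀ i, (mm i : ℝ) ≤ m + s := fun i => by exact_mod_cast hmm2 i
  have haAr : ∀ i, (a : ℝ) ≤ A i := fun i => by exact_mod_cast haA i
  have hBr : (2 : ℝ) ≤ B := by exact_mod_cast hB2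
  have hBar : (B : ℝ) ≤ a := by exact_mod_cast hBa
  have hKr : (59 : ℝ) ≤ K := by exact_mod_cast hK59
  obtain ⟨t, ht⟩ : ∃ t : ℝ, t = ∑ j, (mm j : ℝ) * A j := ⟨_, rfl⟩
  have ht4 : 4 * t ≤ 40 / 39 * (q ^ 2 * m) := by
    have g1 : t ≤ (m + s) * α := by
      rw [ht, hα, mul_sum]
      exact sum_le_sum fun i _ => mul_le_mul_of_nonneg_right (hmm2r i) (Nat.cast_nonneg _)
    have g2 : (m + s : ℝ) * (4 * α) ≤ (m + s) * q ^ 2 :=
      mul_le_mul_of_nonneg_left hα4 (by positivity)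
    have g3 : (m + s : ℝ) * q ^ 2 ≤ 401 / 400 * m * q ^ 2 :=
      mul_le_mul_of_nonneg_right (by linarith) (by positivity)
    have g4 : 0 ≤ q ^ 2 * m := by positivity
    linarith
  -- the variation of the spectators
  have hfib := fun f : Fin G → ℝ => sum_fibR π f
  obtain ⟨V, hV⟩ : ∃ V : ℝ, V = ∑ y, ((hi (π y) : ℝ) - lo (π y)) := ⟨_, rfl⟩
  have hlohir : ∀ g, (lo g : ℝ) ≤ hi g := fun g => by exact_mod_cast hlohi g
  have hVle : V ≤ 2 * B * s := by
    rw [hV, ← hfib fun g => (hi g : ℝ) - lo g]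
    have g1 : ∀ g, ((∑ y, if π y = g then 1 else 0 : ℕ) : ℝ) * ((hi g : ℝ) - lo g) ≤
        2 * B * ((hi g - lo g : ℕ) : ℝ) := by
      intro g
      rw [Nat.cast_sub (hlohi g)]
      apply mul_le_mul_of_nonneg_right _ (by linarith [hlohir g])
      have := hcg2 g
      exact_mod_cast this
    refine (sum_le_sum fun g _ => g1 g).trans ?_
    rw [← mul_sum]
    apply mul_le_mul_of_nonneg_left _ (by positivity)
    exact_mod_cast htel
  obtain ⟨P, hP⟩ : ∃ P : ℝ, P = q * m := ⟨_, rfl⟩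
  rw [← hP] at hd1 hd2 hxP
  have hP0 : 0 ≤ P := by rw [hP]; positivity
  have hmP : 1000 * (m : ℝ) ≤ P := by
    rw [hP]
    exact mul_le_mul_of_nonneg_right hq1 (Nat.cast_nonneg _)
  have hqP : q ^ 2 ≤ 5 / 2 * P := by
    rw [hP]
    have g1 := mul_le_mul_of_nonneg_right (show q ≤ 5 / 2 * m by linarith)
      (show (0 : ℝ) ≤ q by linarith)
    linarith
  have hP4 : 400000 ≤ P := by linarith
  have hV2 : 2 * (m + s + 1) * V ≤ 385 / 10000 * P := by
    have g1 : (B : ℝ) * s ≤ 96 / 10000 * q := by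
      have : (0 : ℝ) ≤ B := Nat.cast_nonneg _
      linarith
    have g2 : V ≤ 192 / 10000 * q := by linarith
    have g3 : 2 * (m + s + 1 : ℝ) * V ≤ 2 * (401 / 400 * m) * (192 / 10000 * q) :=
      mul_le_mul (by linarith) g2 (by
        rw [hV]
        exact sum_nonneg fun y _ => by linarith [hlohir (π y)]) (by positivity)
    rw [hP]
    have g4 : 0 ≤ q * m := by positivity
    linarith
  have hCm : (C : ℝ) * (m + s + 1) ≤ 1304 / 10000 * P := by
    have g1 : (C : ℝ) * (m + s + 1) ≤ (13 / 100 * q) * (401 / 400 * m) :=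
      mul_le_mul hCr hms (by positivity) (by positivity)
    rw [hP]
    have g4 : 0 ≤ q * m := by positivity
    linarith
  have her1 : ∀ y, (lo (π y) : ℝ) ≤ e y := fun y => by exact_mod_cast hlo y
  have her2 : ∀ y, (e y : ℝ) ≤ hi (π y) := fun y => by exact_mod_cast hhi y
  have her3 : ∀ y, (e y : ℝ) ≤ m + s := fun y => by exact_mod_cast (heb y).2
  have hhir : ∀ g, (hi g : ℝ) ≤ m + s := fun g => by exact_mod_cast hhim g
  have hlor : ∀ g, (m : ℝ) ≤ lo g := fun g => by exact_mod_cast hlom g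
  have hVup : ∑ g, ((∑ y, if π y = g then 1 else 0 : ℕ) : ℝ) * ((hi g : ℝ) + 1) ^ 2 ≤
      ∑ y, (e y : ℝ) * (e y + 1) + (2 * (m + s + 1) * V + C * (m + s + 1)) := by
    rw [hfib fun g => ((hi g : ℝ) + 1) ^ 2, hV, mul_sum]
    have e1 : (C : ℝ) * (m + s + 1) = ∑ _y : Fin C, ((m : ℝ) + s + 1) := by
      rw [sum_const, card_univ, Fintype.card_fin, nsmul_eq_mul]
    rw [e1, ← sum_add_distrib, ← sum_add_distrib]
    refine sum_le_sum fun y _ => ?_
    have g1 := her1 y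
    have g2 := her2 y
    have g3 := her3 y
    have g4 := hhir (π y)
    have g5 := hlohir (π y)
    have g6 : ((hi (π y) : ℝ) - e y) * (hi (π y) + e y + 2) ≤
        (hi (π y) - lo (π y)) * (2 * (m + s + 1)) :=
      mul_le_mul (by linarith) (by linarith) (by positivity) (by linarith)
    linarith
  have hVlo : ∑ y, (e y : ℝ) * (e y + 1) -
      ∑ g, ((∑ y, if π y = g then 1 else 0 : ℕ) : ℝ) * (lo g : ℝ) ^ 2 ≤
      2 * (m + s + 1) * V + C * (m + s + 1) := by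
    rw [hfib fun g => (lo g : ℝ) ^ 2, hV, mul_sum]
    have e1 : (C : ℝ) * (m + s + 1) = ∑ _y : Fin C, ((m : ℝ) + s + 1) := by
      rw [sum_const, card_univ, Fintype.card_fin, nsmul_eq_mul]
    rw [e1, ← sum_add_distrib, ← sum_sub_distrib]
    refine sum_le_sum fun y _ => ?_
    have g1 := her1 y
    have g2 := her2 y
    have g3 := her3 y
    have g4 := hhir (π y)
    have g5 := hlohir (π y)
    have g7 : (0 : ℝ) ≤ lo (π y) := Nat.cast_nonneg _
    have g6 : ((e y : ℝ) - lo (π y)) * (e y + lo (π y)) ≤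
        (hi (π y) - lo (π y)) * (2 * (m + s + 1)) :=
      mul_le_mul (by linarith) (by linarith) (by positivity) (by linarith)
    linarith
  have hx1 : 1 + x0 ≤ 64 / 10000 * P := by linarith
  have hXi : ∀ i, 2 * (mm i : ℝ) + 1 + x0 ≤ 2 * (m + s) + 1 + x0 := fun i => by
    linarith [hmm2r i]
  have hKX2 : ∀ i, 2 * (K : ℝ) * (2 * mm i + 1 + x0) ≤ d := fun i =>
    (mul_le_mul_of_nonneg_left (hXi i) (by positivity)).trans hKX
  have hA0 : ∀ i, (0 : ℝ) < A i := fun i => by linarith [haAr i]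
  have hcg0 : ∀ g, (B : ℝ) ≤ ((∑ y, if π y = g then 1 else 0 : ℕ) : ℝ) := fun g => by
    exact_mod_cast hcg1 g
  have hd : CQ r G A mm (fun i => (A i : ℝ) * x0) π e (fun _ : Fin 0 => 0)
      (fun g => ∑ y, if π y = g then 1 else 0) lo hi ⟨0, hr0⟩ d K := by
    refine { hK := by omega, hr := ?_, hA := fun i => ?_, hm := fun i => ?_, hc := fun g => rfl, hc2 := fun g => ?_, hlo := hlo, hhi := hhi, hx := fun y => Nat.zero_le _, hT := ?_, s1 := fun i => ?_, s1x := ?_, s1' := fun g => ?_, s2 := fun i => ?_, s2' := fun g => ?_, s3 := ?_, hY0 := fun i => mul_nonneg (hA0 i).le hx0, hY := fun i => ?_, e2 := fun i => ?_, e3 := fun i => ?_ }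
    · -- hr
      have g1 : ((r + G + 1 : ℕ) : ℝ) ≤ ((K ^ 2 : ℕ) : ℝ) := by
        have g2 : (r : ℝ) ≤ s + 1 := by exact_mod_cast hrs
        have g3 : (G : ℝ) ≤ C := by exact_mod_cast hGC
        push_cast
        linarith
      exact_mod_cast g1
    · have := haA i
      omega
    · have g1 := hmm1r i
      have g2 : (1 : ℝ) ≤ mm i := by linarith
      exact_mod_cast g2
    · have := hcg1 g
      omega
    · rw [univ_eq_empty (α := Fin 0), sum_empty, add_zero, ← hUe]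
      exact hUd1
    · refine le_trans ?_ (hKX2 i)
      exact mul_le_mul_of_nonneg_left (by linarith) (by positivity)
    · rw [univ_eq_empty (α := Fin 0), sum_empty, zero_div, add_zero]
      refine le_trans ?_ (hKX2 ⟨0, hr0⟩)
      exact mul_le_mul_of_nonneg_left (by linarith) (by positivity)
    · refine le_trans (mul_le_mul_of_nonneg_left ?_ (by positivity)) hKX
      have := hhir g
      linarith
    · refine hKB.trans (mul_le_mul_of_nonneg_left ?_ (by positivity))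
      have g1 : (B : ℝ) * m ≤ A i * mm i := mul_le_mul (by linarith [haAr i]) (hmm1r i)
        (Nat.cast_nonneg _) (hA0 i).le
      have g2 : 0 ≤ (A i : ℝ) * mm i := mul_nonneg (hA0 i).le (Nat.cast_nonneg _)
      linarith
    · refine hKB.trans (mul_le_mul_of_nonneg_left ?_ (by positivity))
      exact mul_le_mul (hcg0 g) (hlor g) (Nat.cast_nonneg _) (Nat.cast_nonneg _)
    · -- s3
      have e1 : ∑ i, (A i : ℝ) * (2 * mm i + 1) ^ 2 =
          ∑ i, 4 * (A i : ℝ) * (mm i * (mm i + 1)) + α := by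
        rw [hα, ← sum_add_distrib]
        refine sum_congr rfl fun i _ => ?_
        ring
      rw [univ_eq_empty (α := Fin 0), sum_empty, e1]
      have g2 : ((d : ℝ) + 3 - 1 / (2 * K)) ^ 2 ≥ ((d : ℝ) + 3) ^ 2 - (d + 3) / K := by
        have e : ((d : ℝ) + 3 - 1 / (2 * K)) ^ 2 =
            ((d : ℝ) + 3) ^ 2 - (d + 3) / K + (1 / (2 * K)) ^ 2 := by
          have : (0 : ℝ) < K := by linarith
          field_simp
          ring
        rw [e]
        have : (0 : ℝ) ≤ (1 / (2 * K)) ^ 2 := by positivity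
        linarith
      have g3 : ((d : ℝ) + 3) / K ≤ (d + 3) / 59 :=
        div_le_div_of_nonneg_left (by linarith) (by norm_num) hKr
      have g4 : ((d : ℝ) + 3) ^ 2 = (d + 2) * (d + 3) + (d + 3) := by ring
      have g5 : 2 * (2 * (mm ⟨0, hr0⟩ : ℝ) + 1) * 0 + 0 ^ 2 / (A ⟨0, hr0⟩ : ℝ) = 0 := by simp
      rw [g5]
      linarith
    · -- hY
      rw [← ht]
      have e1 : ((A i : ℝ) * x0) ^ 2 / A i = A i * x0 ^ 2 := by
        have := hA0 i
        field_simp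
      rw [e1]
      have g1 : (a : ℝ) * x0 ^ 2 ≤ A i * x0 ^ 2 :=
        mul_le_mul_of_nonneg_right (haAr i) (by positivity)
      have g2 : 0 ≤ 4 * (mm i : ℝ) * (A i * x0) := by
        have := hA0 i
        positivity
      linarith
    · -- e2
      have e1 : 2 * (K : ℝ) * (2 * mm i * A i + A i + A i * x0) =
          A i * (2 * K * (2 * mm i + 1 + x0)) := by ring
      rw [e1]
      exact mul_le_mul_of_nonneg_left (hKX2 i) (hA0 i).le
    · -- e3
      rw [univ_eq_empty (α := Fin 0), sum_empty, add_zero]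
      have e1 : 2 * ((A i : ℝ) + A i * x0) / A i = 2 * (1 + x0) := by
        have := hA0 i
        field_simp
      rw [e1]
      have g1 := hAα i
      have g2 := hmm2r i
      linarith
  have key := hd.dbl
  have hcond : CDcond A mm e (fun _ : Fin 0 => 0) = ∑ p, (w p + 1).choose 2 := by
    rw [hsum fun y => (y + 1).choose 2]
    unfold CDcond
    rw [univ_eq_empty (α := Fin 0), sum_empty, add_zero]
  rw [hcond] at key
  exact ⟨fun h => Emp_equiv σ hσ (key.1 h), fun h => Sur_equiv σ hσ (key.2 h)⟩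

end Pool.Agent.Y205.MD
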